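import Pool.Agent.H69.NJ.Num
import Pool.Agent.H96.R1.Gw

/-!
# No jump of the second coordinate: the numbers of a package

`fin_lam`: the numbers of the labels over the active coordinate are calm: there is `M` with
`Λ {a₀} k w₁ w₁ - Λ {a₀} k w₀ w₀ ≤ M (w₁ - w₀)` for the good windows `w₀ < w < w₁` near `w`.
-/

set_option autoImplicit false

namespace Pool.NJ69

open Finset Real
open Pool.Agent.H49.Ent Pool.Agent.H32.Dense Pool.STK Pool.KA Pool.KSAT Pool.K2S Pool.PB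
  Pool.GEN Pool.S6C Pool.GRW Pool.PKG Pool.R1
open Pool.CHT (chsys bet)
open Pool.LBT (ThrOf)
open Pool.PLN (H2S)

/-- The pair of the active coordinate and of the coordinate `k`. -/
def pr2 {n : ℕ} (a₀ k : Fin n) (i : Fin 2) : Fin n := if (i : ℕ) = 0 then a₀ else k

theorem pr2_zero {n : ℕ} (a₀ k : Fin n) (h : 0 < 2) : pr2 a₀ k ⟨0, h⟩ = a₀ := if_pos rfl

theorem pr2_one {n : ℕ} (a₀ k : Fin n) (h : 1 < 2) : pr2 a₀ k ⟨1, h⟩ = k := if_neg one_ne_zero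

theorem img0 {m k : ℕ} (hk : 0 < k) (ε : Fin k → Fin m) :
    (Finset.Iio (⟨0, hk⟩ : Fin k)).image ε = ∅ := by
  rw [Finset.image_eq_empty]
  ext x
  simp only [Finset.mem_Iio, Finset.notMem_empty, iff_false, not_lt, Fin.le_def]
  omega

theorem img1 {m k : ℕ} (hk : 1 < k) (ε : Fin k → Fin m) :
    (Finset.Iio (⟨1, hk⟩ : Fin k)).image ε = {ε ⟨0, by omega⟩} := by
  ext x
  simp only [Finset.mem_image, Finset.mem_Iio, Finset.mem_singleton, Fin.lt_def]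
  constructor
  · rintro ⟨i, hi, rfl⟩
    have h1 : (i : ℕ) < 1 := hi
    have h2 : i = ⟨0, by omega⟩ := Fin.ext (show (i : ℕ) = 0 by omega)
    rw [h2]
  · rintro rfl
    exact ⟨⟨0, by omega⟩, show 0 < 1 by norm_num, rfl⟩

theorem vs_one {m k : ℕ} (hk : 0 < k) (L : Finset (Fin m) → Fin m → ℝ → ℝ → ℝ)
    (ε : Fin k → Fin m) (w : ℝ) : vs L ε w 1 = L ∅ (ε ⟨0, hk⟩) w w := by
  rw [vs, dif_pos hk, img0 hk, vs]

theorem vs_two {m k : ℕ} (hk : 1 < k) (L : Finset (Fin m) → Fin m → ℝ → ℝ → ℝ)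
    (ε : Fin k → Fin m) (w : ℝ) : vs L ε w 2 =
      L {ε ⟨0, by omega⟩} (ε ⟨1, hk⟩) w (L ∅ (ε ⟨0, by omega⟩) w w) := by
  rw [vs, dif_pos hk, img1 hk, vs_one (show 0 < k by omega)]

theorem vn_zero {m k : ℕ} (hk : 0 < k) (L : Finset (Fin m) → Fin m → ℝ → ℝ → ℝ)
    (ε : Fin k → Fin m) (x : Fin m) : vn L ε ⟨0, hk⟩ x = fun w => L ∅ x w w := by
  funext w
  unfold vn
  rw [img0 hk]
  rfl

theorem vn_one {m k : ℕ} (hk : 1 < k) (L : Finset (Fin m) → Fin m → ℝ → ℝ → ℝ)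
    (ε : Fin k → Fin m) (x : Fin m) : vn L ε ⟨1, hk⟩ x = fun w =>
      L {ε ⟨0, by omega⟩} x w (L ∅ (ε ⟨0, by omega⟩) w w) := by
  funext w
  unfold vn
  rw [img1 hk]
  show L _ x w (vs L ε w 1) = _
  rw [vs_one (show 0 < k by omega)]

variable {n : ℕ} {hn : 2 ≤ n} {S : PCl n} {P : ℝ → ℝ → ℝ} {r : ℝ → ℝ}
  {P' : ℕ → List (Fin n) × Fin n → ℝ → ℝ → ℝ} {Λ : Finset (Fin n) → Fin n → ℝ → ℝ → ℝ}

section pair

variable {a₀ k : Fin n}

/-- The pair is greedy at every good window. -/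
theorem wv_pair (H : Pk hn S P r P' Λ) (hn3 : 3 ≤ n) (ha : (a₀ : ℕ) = 0) {w : ℝ}
    (hw : Gwd P P' Λ w) : w ∈ Wv Λ (pr2 a₀ k) := by
  obtain ⟨al, g₀, s, d, e, K₀, N, hal, hg₀, hC⟩ := H.cl
  have hact : ∀ w : ℝ, 0 ≤ w → w < 1 → Λ ∅ a₀ w w = w :=
    fun w h0 h1 => H.lam.act hC.ne hal (hC.actm.q hg₀) (hC.actb _ ha) H.pos h0 h1
  have h1 : vs Λ (pr2 a₀ k) w 1 = w := by
    rw [vs_one (by norm_num), pr2_zero]
    exact hact w hw.pos.le hw.lt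
  refine ⟨hw.pos, hw.lt, ?_, ?_⟩
  · intro j l hjl
    rcases (show (j : ℕ) = 0 ∨ (j : ℕ) = 1 by omega) with hj | hj
    · have hj' : j = ⟨0, by norm_num⟩ := Fin.ext hj
      subst hj'
      show vs Λ (pr2 a₀ k) w 1 ≤ vn Λ (pr2 a₀ k) ⟨0, by norm_num⟩ (pr2 a₀ k l) w
      rw [h1, vn_zero]
      exact H.lam.low _ _ _ _ hw.lt.le
    · have hj' : j = ⟨1, by norm_num⟩ := Fin.ext hj
      have hl : l = j := le_antisymm (by
        rw [Fin.le_def]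
        have := l.2
        omega) hjl
      rw [hl, vs_succ]
  · have h2 := hw.ow.2.2.2.2
    have h3 := hw.ow.1
    have e0 : bse (n := n) (ow Λ w ⟨0, by omega⟩) = a₀ := by
      refine Fin.ext ?_
      show ((ow Λ w ⟨0, by omega⟩ : Fin (n - 1)) : ℕ) = (a₀ : ℕ)
      rw [h3 _ rfl, ha]
    intro j x
    rcases (show (j : ℕ) = 0 ∨ (j : ℕ) = 1 by omega) with hj | hj
    · have hj' : j = ⟨0, by norm_num⟩ := Fin.ext hj
      subst hj'
      rw [vn_zero]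
      have h4 := h2 ⟨0, by omega⟩ x
      rwa [vn_zero] at h4
    · have hj' : j = ⟨1, by norm_num⟩ := Fin.ext hj
      subst hj'
      rw [vn_one, pr2_zero]
      have h4 := h2 ⟨1, by omega⟩ x
      rw [vn_one] at h4
      rw [e0] at h4
      exact h4

/-- The number of the coordinate `k` over the active one is at least the threshold. -/
theorem bet_le_lam (H : Pk hn S P r P' Λ) (hn3 : 3 ≤ n) (hF2 : FZX 2) (ha : (a₀ : ℕ) = 0)
    (hk : k ≠ a₀) {c : ℕ → Fin n} (hc0 : c 0 = a₀) (hc1 : c 1 = k) {w : ℝ}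
    (hw : Gwd P P' Λ w) {j : ℕ} (hj : Λ {a₀} k w w < 1 - tht j * w) :
    bet (P' j) c 1 w w ≤ Λ {a₀} k w w := by
  obtain ⟨al, g₀, s, d, e, K₀, N, hal, hg₀, hC⟩ := H.cl
  have hact : Λ ∅ a₀ w w = w :=
    H.lam.act hC.ne hal (hC.actm.q hg₀) (hC.actb _ ha) H.pos hw.pos.le hw.lt
  have hwv := wv_pair (k := k) H hn3 ha hw
  have hinj : Function.Injective (pr2 a₀ k) := by
    intro x y hxy
    fin_cases x <;> fin_cases y
    · rfl
    · exact absurd (hxy : a₀ = k) hk.symm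
    · exact absurd (hxy : k = a₀) hk
    · rfl
  have hex : VExa S Λ (pr2 a₀ k) w := by
    intro ρ hρ
    refine vst_exa hF2 hC.ne (C₀ := 6) (by norm_num) H.tmc H.lam hal hg₀ hC.actm H.pos hinj
      (fun l hl => ?_) hwv.1 hwv.2.1 hwv.2.2.1 hwv.2.2.2 hρ
    have hl' : l = ⟨0, by norm_num⟩ := Fin.ext hl
    subst hl'
    rw [pr2_zero]
    exact hC.actb a₀ ha
  have e2 : vs Λ (pr2 a₀ k) w (1 + 1) = Λ {a₀} k w w := by
    show vs Λ (pr2 a₀ k) w 2 = _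
    rw [vs_two (by norm_num), pr2_zero, pr2_one, hact]
  have h1 := bet_le_vst (tht_pos j) H.ne (C₀ := 6) (by norm_num) H.tmc H.lam (H.cht j) hinj
    (c := c) (fun i => by
      fin_cases i
      · exact hc0
      · exact hc1) hwv hex (j := 1) (by norm_num) (by rw [e2]; exact hj)
  rw [e2] at h1
  exact h1

theorem tht_ex {x : ℝ} (hx : 0 < x) : ∃ j, tht j < x := by
  obtain ⟨j, hj⟩ := exists_nat_gt (1 / x)
  refine ⟨j, ?_⟩
  unfold tht
  rw [div_lt_iff₀ (by positivity)]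
  rw [div_lt_iff₀ hx] at hj
  nlinarith

/-- **The numbers over the active coordinate are calm.** -/
theorem fin_lam (H : Pk hn S P r P' Λ) (hn3 : 3 ≤ n) (hF2 : FZX 2) (ha : (a₀ : ℕ) = 0)
    (hk : k ≠ a₀) {w : ℝ} (hw1 : w < 1)
    (hH2 : ∃ C η : ℝ, 0 ≤ C ∧ 0 < η ∧ ∀ w₁ ∈ Wr P P' Λ, w < w₁ → w₁ < w + η → ∀ w₀ : ℝ,
      0 < w₀ → w₀ < w → H2S S w₀ w₁ (C * (w₁ - w₀))) :
    Pool.STR.FinW (fun w => Λ {a₀} k w w) (Wr P P' Λ) w := by
  obtain ⟨C, η₁, hC0, hη₁, hH2⟩ := hH2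
  have H' := H
  obtain ⟨al, g₀, s, d, e, K₀, N, hal, hg₀, hC⟩ := H'.cl
  obtain ⟨M, η₂, hM, hη₂, hstep⟩ := nj_step hal hg₀ hC.actm hC0
  have hmem : ∀ (τ : ℝ) (J : ℕ) (F : Fam n J) (A : F.Ω → Prop), S.St τ J F A →
      F.Tr ∧ F.Tm (τ * J) ∧ F.Rb (τ * J) ∧ Real.exp (-(τ * J)) ≤ Pe F.p A := fun τ J F A h => by
    obtain ⟨h1, h2, h3, h4, -⟩ := hC.mem τ J F A h
    exact ⟨h1, h2, h3, h4⟩
  have hx : ∀ (τ : ℝ) (J : ℕ) (F : Fam n J) (A : F.Ω → Prop), S.St τ J F A →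
      ∀ ω i, |F.x ω i| ≤ 2 := fun τ J F A h ω i => by
    obtain ⟨-, -, -, -, h5, -⟩ := hC.mem τ J F A h
    obtain ⟨⟨h6, h7⟩, h8, -, -⟩ := h5 ω i
    have h9 := F.dir ω i
    have h10 : F.t ω ≤ 1 := by
      unfold Fam.t
      rw [div_le_one (by positivity)]
      exact_mod_cast (F.tim ω).le
    have h11 : 0 ≤ F.t ω := by
      unfold Fam.t
      positivity
    rw [abs_le] at h9 ⊢
    unfold Fam.x
    constructor <;> nlinarith
  obtain ⟨c, hc⟩ : ∃ c : ℕ → Fin n, c = fun i => if i = 0 then a₀ else k := ⟨_, rfl⟩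
  have hc0 : c 0 = a₀ := by rw [hc]; exact if_pos rfl
  have hc1 : c 1 = k := by rw [hc]; exact if_neg one_ne_zero
  refine ⟨M, min (η₁ / 2) (η₂ / 4), lt_min (by linarith) (by linarith), ?_⟩
  intro w₀ hw₀ w₁ hw₁ h0 ha1 hb1 hc1' hd1 _
  have hg0 := hw₀.1
  have hg1 := hw₁.1
  have q1 := min_le_left (η₁ / 2) (η₂ / 4)
  have q2 := min_le_right (η₁ / 2) (η₂ / 4)
  show Λ {a₀} k w₁ w₁ - Λ {a₀} k w₀ w₀ ≤ M * (w₁ - w₀)
  have hL1 := H.lam.le1 {a₀} k w₁ w₁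
  have hL0 := H.lam.low {a₀} k w₀ w₀ hg0.lt.le
  rcases le_or_gt 1 (Λ {a₀} k w₀ w₀) with h1 | h1
  · have h2 : 0 ≤ M * (w₁ - w₀) := mul_nonneg (by linarith) (by linarith)
    linarith
  obtain ⟨j, hj⟩ := tht_ex (sub_pos.2 h1)
  have hj' : Λ {a₀} k w₀ w₀ < 1 - tht j * w₀ := by
    have h2 : tht j * w₀ ≤ tht j := mul_le_of_le_one_right (tht_pos j).le hg0.lt.le
    linarith
  have hbet := bet_le_lam H hn3 hF2 ha hk hc0 hc1 hg0 hj'
  refine le_of_forall_pos_le_add fun h hh => ?_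
  obtain ⟨w₂, b1, b2, b3⟩ := ex_gw H (x := w₁) (y := min (w₁ + h / M) (min (w + η₁)
    (min (w₁ + η₂ / 4) 1))) hg1.pos.le (lt_min (by
      have : 0 < h / M := div_pos hh (by linarith)
      linarith) (lt_min (by linarith) (lt_min (by linarith) hg1.lt)))
    ((min_le_right _ _).trans ((min_le_right _ _).trans (min_le_right _ _)))
  have b4 : w₂ < w₁ + h / M := b2.trans_le (min_le_left _ _)
  have b5 : w₂ < w + η₁ := b2.trans_le ((min_le_right _ _).trans (min_le_left _ _))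
  have b6 : w₂ < w₁ + η₂ / 4 := b2.trans_le ((min_le_right _ _).trans
    ((min_le_right _ _).trans (min_le_left _ _)))
  have b7 : M * (w₂ - w₁) ≤ h := by
    have h2 : w₂ - w₁ < h / M := by linarith
    rw [lt_div_iff₀ (by linarith)] at h2
    linarith
  have hmain : Λ {a₀} k w₁ w₁ ≤ Λ {a₀} k w₀ w₀ + M * (w₂ - w₀) := by
    rcases lt_or_ge (Λ {a₀} k w₁ w₁) w₂ with h2 | h2
    · have h3 : 1 * (w₂ - w₀) ≤ M * (w₂ - w₀) := mul_le_mul_of_nonneg_right hM (by linarith)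
      linarith
    · have hlb := lb1_lam hmem hx H.lam hal (hC.actm.q hg₀) (c := c) (by
        rw [hc0]
        exact hC.actb a₀ ha) hg1.pos b1 b3.1.lt (by rw [hc0, hc1]; exact h2)
      rw [hc0, hc1] at hlb
      have h3 := hstep hmem H.ne (H.cht j) (tht_pos j) (c := c) (by
        rw [hc0]
        exact hC.actb a₀ ha) h0 (by linarith) b3.1.lt (by linarith)
        (fun w' h' h'' => hH2 w₂ b3 (by linarith) b5 w' h' (by linarith)) hlb
      linarith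
  have e1 : M * (w₂ - w₀) = M * (w₁ - w₀) + M * (w₂ - w₁) := by ring
  linarith

end pair

/-- The sum of two calm functions. -/
theorem finW_add {c c' : ℝ → ℝ} {W : Set ℝ} {w : ℝ} (h : Pool.STR.FinW c W w)
    (h' : Pool.STR.FinW c' W w) : Pool.STR.FinW (fun w => c w + c' w) W w := by
  obtain ⟨M, η, hη, h⟩ := h
  obtain ⟨M', η', hη', h'⟩ := h'
  refine ⟨M + M', min η η', lt_min hη hη', fun w₀ h0 w₁ h1 p0 p1 p2 p3 p4 p5 => ?_⟩
  have q1 := min_le_left η η'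
  have q2 := min_le_right η η'
  have e1 := h w₀ h0 w₁ h1 p0 (by linarith) p2 p3 (by linarith) p5
  have e2 := h' w₀ h0 w₁ h1 p0 (by linarith) p2 p3 (by linarith) p5
  show c w₁ + c' w₁ - (c w₀ + c' w₀) ≤ (M + M') * (w₁ - w₀)
  linarith

theorem finW_sub {c : ℝ → ℝ} {W W' : Set ℝ} {w : ℝ} (h : Pool.STR.FinW c W w) (hW : W' ⊆ W) :
    Pool.STR.FinW c W' w := by
  obtain ⟨M, η, hη, h⟩ := h
  exact ⟨M, η, hη, fun w₀ h0 w₁ h1 => h w₀ (hW h0) w₁ (hW h1)⟩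

/-- The numbers are monotone. -/
theorem lam_mono {m : ℕ} {S : PCl m} {L : Finset (Fin m) → Fin m → ℝ → ℝ → ℝ} (hL : LamW S L)
    (I : Finset (Fin m)) (k : Fin m) : Monotone fun w => L I k w w :=
  fun _ _ h => hL.mono _ _ _ _ _ _ _ (Finset.Subset.refl _) h h

end Pool.NJ69
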