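import Pool.Agent.H69.NJ.Clm
import Pool.Agent.H34.NJ.Win
import Pool.Agent.H22.M.Pka

/-!
# Calm levels before the window of the last row

`calmB_pk`: the labels over the active coordinate are calm before the window at which the last row
is reached, if the threshold is continuous there and all last rows have a defect.
-/

set_option autoImplicit false

namespace Pool.NJ69

open Finset Real
open Pool.Agent.H49.Ent Pool.Agent.H32.Dense Pool.STK Pool.KA Pool.KSAT Pool.K2S Pool.PB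
  Pool.GEN Pool.S6C Pool.GRW Pool.PKG Pool.R1
open Pool.PLN (H2S)
open Pool.PM (LastW BadR ConT CalmB)

variable {n : ℕ} {hn : 2 ≤ n} {S : PCl n} {P : ℝ → ℝ → ℝ} {r : ℝ → ℝ}
  {P' : ℕ → List (Fin n) × Fin n → ℝ → ℝ → ℝ} {Λ : Finset (Fin n) → Fin n → ℝ → ℝ → ℝ}

/-- **Calm levels before the window of the last row.** -/
theorem calmB_pk (H : Pk hn S P r P' Λ) (hn3 : 3 ≤ n) (hF2 : FZX 2) (hF : FZX (n - 1))
    (hTop : Pool.TOP.TopS n) {u : ℝ} (hu : LastW P u) (hbad : BadR r) (hcon : ConT P u) {a₀ k : Fin n}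
    (ha : (a₀ : ℕ) = 0) (hk : k ≠ a₀) {W : Set ℝ} (hW : W ⊆ Wr P P' Λ) :
    CalmB (fun w => Λ {a₀} k w w) W u := by
  obtain ⟨hu0, hu1, hlt, -⟩ := hu
  obtain ⟨Dq, hM⟩ := Pool.JPN.m3d_ex (n - 1)
  obtain ⟨M, η, -, hη, h⟩ := calm_lam H hn3 hF2 ha hk hu1.le
    ⟨((n : ℝ) + Dq) * Real.log 2, 1, by positivity, one_pos, fun w₁ hw₁ w₀ h0 _ h01 h1u =>
      Pool.NJ34.h2_below hM H hF hTop hu1 hlt hcon (fun Q h2 h3 => by
        have := hbad Q h2 h3
        unfold Pool.PM.nfr at this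
        linarith) h0.le h01.le h1u⟩
  exact ⟨M, η, hη, fun w₀ hw₀ w₁ hw₁ b0 b1 b2 b3 => h w₀ (hW hw₀) w₁ (hW hw₁) b0 b1 b2 b3⟩

end Pool.NJ69
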