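import Pool.Agent.H69.NJ.Cb
import Pool.Agent.H34.NJ.Ful
import Pool.Agent.H93.PM.Top3

/-!
# The last rows in dimension three

`noJ_lam`: the labels over the active coordinate have no jump at the window at which the last row is
reached, if all last rows have a defect. `topW3`: the last rows in dimension three, from `GeoN 3`.
-/

set_option autoImplicit false

namespace Pool.NJ69

open Finset Real
open Pool.Agent.H49.Ent Pool.Agent.H32.Dense Pool.STK Pool.KA Pool.KSAT Pool.K2S Pool.PB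
  Pool.GEN Pool.S6C Pool.GRW Pool.PKG Pool.R1
open Pool.PLN (H2S)
open Pool.ONE (lst LocN Mic Sta Jmp)
open Pool.PM (LastW BadR ConT CalmB NoJ)

section gen

variable {n : ℕ} {hn : 2 ≤ n} {S : PCl n} {P : ℝ → ℝ → ℝ} {r : ℝ → ℝ}
  {P' : ℕ → List (Fin n) × Fin n → ℝ → ℝ → ℝ} {Λ : Finset (Fin n) → Fin n → ℝ → ℝ → ℝ}

/-- **No jump at the window of the last row.** -/
theorem noJ_lam (H : Pk hn S P r P' Λ) (hn3 : 3 ≤ n) (hZ : ∀ k, 1 ≤ k → k < n → FZX k)
    (hRW : ∀ k, 2 ≤ k → k < n → Pool.TOP.RW k) {u : ℝ} (hu : LastW P u) (hbad : BadR r)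
    {a₀ k : Fin n} (ha : (a₀ : ℕ) = 0) (hk : k ≠ a₀) {W : Set ℝ} (hW : W ⊆ Wr P P' Λ) :
    NoJ (fun w => Λ {a₀} k w w) W u := by
  obtain ⟨hu0, hu1, hlt, htop⟩ := hu
  obtain ⟨C, η₁, hC, hη₁, h2⟩ := Pool.NJ34.h2_full H hZ hRW (u := u)
    (fun w h1 h2 => htop w h1 h2.le) (fun Q h2 h3 => by
      have := hbad Q h2 h3
      unfold Pool.PM.nfr at this
      linarith)
  obtain ⟨M, η, hη, h⟩ := fin_lam H hn3 (hZ 2 (by norm_num) (by omega)) ha hk hu1
    ⟨C, η₁, hC, hη₁, h2⟩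
  intro t ht
  refine ⟨min η (t / (2 * (|M| + 1))), lt_min hη (by positivity), ?_⟩
  intro w₀ b0 w₁ b1 c0 c1 c2 c3 c4 c5
  have e1 := min_le_left η (t / (2 * (|M| + 1)))
  have e2 := min_le_right η (t / (2 * (|M| + 1)))
  have e3 := h w₀ (hW b0) w₁ (hW b1) c0 (by linarith) c2 c3 (by linarith) c5
  have e4 : w₁ - w₀ ≤ t / (|M| + 1) := by
    have e5 : t / (2 * (|M| + 1)) + t / (2 * (|M| + 1)) = t / (|M| + 1) := by
      field_simp
      ring
    linarith
  rw [le_div_iff₀ (by positivity)] at e4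
  have e6 : M * (w₁ - w₀) ≤ (|M| + 1) * (w₁ - w₀) := by
    refine mul_le_mul_of_nonneg_right ?_ (by linarith)
    have := le_abs_self M
    linarith
  linarith

end gen

/-- **The last rows in dimension three.** -/
theorem topW3 (hG : GeoN 3) (hM : Mic 2 ∧ Sta 2 ∧ Jmp 2) : LocN 3 Pool.STR.TopW := by
  refine Pool.PM93.topW_three hG hM fun hZ H u hu hbad => ?_
  have hM' : ∀ k, 2 ≤ k → k < 3 → Mic k ∧ Sta k ∧ Jmp k := fun k h1 h2 => by
    have h3 : k = 2 := by omega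
    rw [h3]
    exact hM
  have hRW : ∀ k, 2 ≤ k → k < 3 → Pool.TOP.RW k := Pool.TOP.rw_all hZ fun k h1 h2 =>
    Pool.TOP.rowN_of (hM' k h1 h2).1 (hM' k h1 h2).2.1 (hM' k h1 h2).2.2
  exact ⟨fun hcon => calmB_pk H le_rfl (hZ 2 (by norm_num) (by norm_num))
    (hZ 2 (by norm_num) (by norm_num)) (Pool.TOP.tops_ind hZ hM') hu hbad hcon (a₀ := 0) (k := 1) rfl
    (by decide) subset_rfl, fun _ => noJ_lam H le_rfl hZ hRW hu hbad (a₀ := 0) (k := 1) rfl
    (by decide) subset_rfl⟩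

end Pool.NJ69
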