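import Pool.Agent.H69.NJ.Pk

/-!
# Calm labels below the last window

`nj_stepu`: the threshold of the second coordinate at two windows below `u`, with the increase
`M (u - w₀)`. `calm_lam`: the numbers of the labels over the active coordinate are calm below `u`:
`Λ {a₀} k w₁ w₁ - Λ {a₀} k w₀ w₀ ≤ M (u - w₀)` for the good windows `w₀ < w₁ < u` near `u`.
-/

set_option autoImplicit false

namespace Pool.NJ69

open Finset Real
open Pool.Agent.H49.Ent Pool.Agent.H32.Dense Pool.STK Pool.KA Pool.KSAT Pool.K2S Pool.PB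
  Pool.GEN Pool.S6C Pool.GRW Pool.PKG Pool.R1
open Pool.CHT (chsys bet)
open Pool.LBT (ThrOf)
open Pool.PLN (H2S)

section thr

variable {m : ℕ} {θ : ℝ} {S : PCl m} {P : List (Fin m) × Fin m → ℝ → ℝ → ℝ}

/-- **No jump of the second coordinate**, at a real window. -/
theorem nj_realu (hmem : ∀ (τ : ℝ) (J : ℕ) (F : Fam m J) (A : F.Ω → Prop), S.St τ J F A →
      F.Tr ∧ F.Tm (τ * J) ∧ F.Rb (τ * J) ∧ Real.exp (-(τ * J)) ≤ Pe F.p A)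
    (hne : S.Ne) (hP : ThrOf (chsys m θ) S P) (hθ : 0 < θ) {c : ℕ → Fin m} {Nc : ℚ → ℚ → ℝ}
    (hact : ActB Nc S (c 0)) {w₀ w₁ u C : ℝ} {q : ℚ} (h0 : 0 < w₀) (h01 : w₀ ≤ w₁) (h1 : w₁ < 1)
    (h1u : w₁ ≤ u) (hq : 0 ≤ q) (hC : 0 ≤ C) {γ₀ : ℝ} (hγ₀ : 0 < γ₀)
    (h2 : ∀ w : ℝ, 0 < w → w₀ - γ₀ < w → w < w₀ → H2S S w w₁ (C * (u - w)))
    (he : 16 * (C * (u - w₀)) < Nc 0 q) {b₁ : ℝ} (hlab : Lb1 S c w₁ b₁) :
    b₁ ≤ bet P c 1 w₀ w₀ + ((w₁ - w₀) + q) := by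
  refine le_of_forall_pos_le_add fun h hh => ?_
  have hθw : 0 < θ * w₀ := mul_pos hθ h0
  obtain ⟨η, hη⟩ : ∃ η, η = min (h / 8) (θ * w₀ / 2) := ⟨_, rfl⟩
  have hη0 : 0 < η := by
    rw [hη]
    exact lt_min (by linarith) (by linarith)
  have hη1 : η ≤ h / 8 := by
    rw [hη]
    exact min_le_left _ _
  have hη2 : η ≤ θ * w₀ / 2 := by
    rw [hη]
    exact min_le_right _ _
  obtain ⟨K, g0, g1, eta, b, c₀, e0, b0, eb, g1b, hc₀, hL, hA⟩ := hlab η hη0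
  obtain ⟨γ, hγ⟩ : ∃ γ, γ = min (min (w₀ / 4) γ₀) (min (h / 8)
    ((Nc 0 q - 16 * (C * (u - w₀))) / (32 * (C + 1)))) := ⟨_, rfl⟩
  have hγ0 : 0 < γ := by
    rw [hγ]
    exact lt_min (lt_min (by linarith) hγ₀)
      (lt_min (by linarith) (div_pos (by linarith) (by linarith)))
  have hγ1 : γ ≤ w₀ / 4 := by
    rw [hγ]
    exact (min_le_left _ _).trans (min_le_left _ _)
  have hγ1' : γ ≤ γ₀ := by
    rw [hγ]
    exact (min_le_left _ _).trans (min_le_right _ _)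
  have hγ2 : γ ≤ h / 8 := by
    rw [hγ]
    exact (min_le_right _ _).trans (min_le_left _ _)
  have hγ3 : γ ≤ (Nc 0 q - 16 * (C * (u - w₀))) / (32 * (C + 1)) := by
    rw [hγ]
    exact (min_le_right _ _).trans (min_le_right _ _)
  rw [le_div_iff₀ (by linarith)] at hγ3
  obtain ⟨w, hw1, hw2⟩ := exists_rat_btwn (show w₀ - γ < w₀ by linarith)
  have hw0 : (0 : ℝ) < w := by linarith
  have hθw' : 3 / 4 * (θ * w₀) ≤ θ * w := by nlinarith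
  have hk := nj_cls hmem hne hP hact (w₀ := w) (q := q) (w₁ := w₁) (by exact_mod_cast hw0)
    (by linarith) h1 hq (e := C * (u - w)) (mul_nonneg hC (by linarith))
    (h2 w hw0 (by linarith) hw2)
    (by nlinarith) hL hA hc₀ b0 e0 (by linarith) (h := h / 4) (by linarith)
  have hm : bet P c 1 w w ≤ bet P c 1 w₀ w₀ :=
    (hP.law _).mono hw0.le le_rfl hw2.le hw2.le le_rfl (by linarith)
  linarith

/-- **The threshold of the second coordinate at two close windows.** -/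
theorem nj_stepu {Nc : ℚ → ℚ → ℝ} {al : ℝ} {g₀ : ℝ → ℝ} (hal : 0 < al)
    (hg₀ : ∀ ε : ℝ, 0 < ε → 0 < g₀ ε) (hQ : ActM Nc al g₀) {C : ℝ} (hC : 0 ≤ C) :
    ∃ M η : ℝ, 1 ≤ M ∧ 0 < η ∧ ∀ {m : ℕ} {θ : ℝ} {S : PCl m}
      {P : List (Fin m) × Fin m → ℝ → ℝ → ℝ},
      (∀ (τ : ℝ) (J : ℕ) (F : Fam m J) (A : F.Ω → Prop), S.St τ J F A →
        F.Tr ∧ F.Tm (τ * J) ∧ F.Rb (τ * J) ∧ Real.exp (-(τ * J)) ≤ Pe F.p A) →
      S.Ne → ThrOf (chsys m θ) S P → 0 < θ → ∀ {c : ℕ → Fin m}, ActB Nc S (c 0) →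
      ∀ {w₀ w₁ u : ℝ}, 0 < w₀ → w₀ < w₁ → w₁ < 1 → w₁ ≤ u → u - w₀ ≤ η → ∀ {γ₀ : ℝ}, 0 < γ₀ →
      (∀ w : ℝ, 0 < w → w₀ - γ₀ < w → w < w₀ → H2S S w w₁ (C * (u - w))) →
      ∀ {b₁ : ℝ}, Lb1 S c w₁ b₁ → b₁ ≤ bet P c 1 w₀ w₀ + M * (u - w₀) := by
  obtain ⟨ε, hε⟩ : ∃ ε, ε = min (al / 2) (1 / 2) := ⟨_, rfl⟩
  have hε0 : 0 < ε := by
    rw [hε]
    exact lt_min (by linarith) (by norm_num)
  have hε1 : ε ≤ al / 2 := by
    rw [hε]
    exact min_le_left _ _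
  have hε2 : ε ≤ 1 / 2 := by
    rw [hε]
    exact min_le_right _ _
  obtain ⟨A, hA⟩ : ∃ A, A = 32 * (C + 1) / al := ⟨_, rfl⟩
  have hA0 : 0 < A := by
    rw [hA]
    positivity
  have hA1 : A * al = 32 * (C + 1) := by
    rw [hA]
    field_simp
  refine ⟨1 + 2 * A, g₀ ε / (2 * A), by linarith, div_pos (hg₀ ε hε0) (by linarith), ?_⟩
  intro m θ S P hmem hne hP hθ c hact w₀ w₁ u h0 h01 h1 h1u hη γ₀ hγ₀ h2 b₁ hlab
  have hL : 0 < u - w₀ := by linarith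
  rw [le_div_iff₀ (by linarith)] at hη
  have hAL : 0 < A * (u - w₀) := mul_pos hA0 hL
  obtain ⟨q, hq1, hq2⟩ := exists_rat_btwn (show A * (u - w₀) < 2 * A * (u - w₀) by linarith)
  have hq0 : (0 : ℝ) < q := by linarith
  have hq0' : 0 < q := by exact_mod_cast hq0
  have hlow := act_low hQ hε0 (by linarith) hq0' (by linarith)
  have h3 := nj_realu hmem hne hP hθ hact h0 h01.le h1 h1u hq0'.le hC hγ₀ h2 (by
    refine lt_of_lt_of_le ?_ hlow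
    have e1 : al / 2 * q ≤ (al - ε) * q := mul_le_mul_of_nonneg_right (by linarith) hq0.le
    refine lt_of_lt_of_le ?_ e1
    have e2 : al / 2 * (A * (u - w₀)) ≤ al / 2 * q :=
      mul_le_mul_of_nonneg_left hq1.le (by linarith)
    refine lt_of_lt_of_le ?_ e2
    have e3 : al / 2 * (A * (u - w₀)) = 16 * (C * (u - w₀)) + 16 * (u - w₀) := by
      calc al / 2 * (A * (u - w₀)) = A * al / 2 * (u - w₀) := by ring
        _ = 32 * (C + 1) / 2 * (u - w₀) := by rw [hA1]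
        _ = _ := by ring
    linarith) hlab
  linarith


end thr

variable {n : ℕ} {hn : 2 ≤ n} {S : PCl n} {P : ℝ → ℝ → ℝ} {r : ℝ → ℝ}
  {P' : ℕ → List (Fin n) × Fin n → ℝ → ℝ → ℝ} {Λ : Finset (Fin n) → Fin n → ℝ → ℝ → ℝ}

/-- **The labels over the active coordinate are calm below `u`**, if the class has the reading of
the earlier window, with the error `C (u - w₀)`, at the windows near `u`. -/
theorem calm_lam (H : Pk hn S P r P' Λ) (hn3 : 3 ≤ n) (hF2 : FZX 2) {a₀ k : Fin n}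
    (ha : (a₀ : ℕ) = 0) (hk : k ≠ a₀) {u : ℝ} (hu1 : u ≤ 1)
    (hH2 : ∃ C η : ℝ, 0 ≤ C ∧ 0 < η ∧ ∀ w₁ ∈ Wr P P' Λ, ∀ w₀ : ℝ, 0 < w₀ → u - η < w₀ →
      w₀ < w₁ → w₁ < u → H2S S w₀ w₁ (C * (u - w₀))) :
    ∃ M η : ℝ, 1 ≤ M ∧ 0 < η ∧ ∀ w₀ ∈ Wr P P' Λ, ∀ w₁ ∈ Wr P P' Λ, 0 < w₀ → u - η < w₀ →
      w₀ < w₁ → w₁ < u → Λ {a₀} k w₁ w₁ - Λ {a₀} k w₀ w₀ ≤ M * (u - w₀) := by
  obtain ⟨C, η₁, hC0, hη₁, hH2⟩ := hH2
  have H' := H
  obtain ⟨al, g₀, s, d, e, K₀, N, hal, hg₀, hC⟩ := H'.cl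
  obtain ⟨M, η₂, hM, hη₂, hstep⟩ := nj_stepu hal hg₀ hC.actm hC0
  have hmem : ∀ (τ : ℝ) (J : ℕ) (F : Fam n J) (A : F.Ω → Prop), S.St τ J F A →
      F.Tr ∧ F.Tm (τ * J) ∧ F.Rb (τ * J) ∧ Real.exp (-(τ * J)) ≤ Pe F.p A := fun τ J F A h => by
    obtain ⟨h1, h2, h3, h4, -⟩ := hC.mem τ J F A h
    exact ⟨h1, h2, h3, h4⟩
  have hx : ∀ (τ : ℝ) (J : ℕ) (F : Fam n J) (A : F.Ω → Prop), S.St τ J F A →
      ∀ ω i, |F.x ω i| ≤ 2 := fun τ J F A h ω i => by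
    obtain ⟨-, -, -, -, h5, -⟩ := hC.mem τ J F A h
    obtain ⟨⟨h6, h7⟩, h8, -, -⟩ := h5 ω i
    have h9 := F.dir ω i
    have h10 : F.t ω ≤ 1 := by
      unfold Fam.t
      rw [div_le_one (by positivity)]
      exact_mod_cast (F.tim ω).le
    have h11 : 0 ≤ F.t ω := by
      unfold Fam.t
      positivity
    rw [abs_le] at h9 ⊢
    unfold Fam.x
    constructor <;> nlinarith
  obtain ⟨c, hc⟩ : ∃ c : ℕ → Fin n, c = fun i => if i = 0 then a₀ else k := ⟨_, rfl⟩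
  have hc0 : c 0 = a₀ := by rw [hc]; exact if_pos rfl
  have hc1 : c 1 = k := by rw [hc]; exact if_neg one_ne_zero
  refine ⟨M, min η₁ η₂, hM, lt_min hη₁ hη₂, ?_⟩
  intro w₀ hw₀ w₁ hw₁ h0 ha1 hb1 hc1'
  have hg0 := hw₀.1
  have hg1 := hw₁.1
  have q1 := min_le_left η₁ η₂
  have q2 := min_le_right η₁ η₂
  have hL1 := H.lam.le1 {a₀} k w₁ w₁
  have hL0 := H.lam.low {a₀} k w₀ w₀ hg0.lt.le
  rcases le_or_gt 1 (Λ {a₀} k w₀ w₀) with h1 | h1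
  · have h2 : 0 ≤ M * (u - w₀) := mul_nonneg (by linarith) (by linarith)
    linarith
  obtain ⟨j, hj⟩ := tht_ex (sub_pos.2 h1)
  have hj' : Λ {a₀} k w₀ w₀ < 1 - tht j * w₀ := by
    have h2 : tht j * w₀ ≤ tht j := mul_le_of_le_one_right (tht_pos j).le hg0.lt.le
    linarith
  have hbet := bet_le_lam H hn3 hF2 ha hk hc0 hc1 hg0 hj'
  obtain ⟨w₂, b1, b2, b3⟩ := ex_gw H (x := w₁) (y := u) hg1.pos.le hc1' hu1
  rcases lt_or_ge (Λ {a₀} k w₁ w₁) w₂ with h2 | h2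
  · have h3 : 1 * (u - w₀) ≤ M * (u - w₀) := mul_le_mul_of_nonneg_right hM (by linarith)
    linarith
  · have hlb := lb1_lam hmem hx H.lam hal (hC.actm.q hg₀) (c := c) (by
      rw [hc0]
      exact hC.actb a₀ ha) hg1.pos b1 b3.1.lt (by rw [hc0, hc1]; exact h2)
    rw [hc0, hc1] at hlb
    have h3 := hstep hmem H.ne (H.cht j) (tht_pos j) (c := c) (by
      rw [hc0]
      exact hC.actb a₀ ha) h0 (by linarith) b3.1.lt b2.le (by linarith)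
      (γ₀ := w₀ - (u - η₁)) (by linarith)
      (fun w' h' h'' h''' => hH2 w₂ b3 w' h' (by linarith) (by linarith) b2) hlb
    linarith

end Pool.NJ69
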