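import Pool.Agent.H69.NJ.Nj

/-!
# No jump of the second coordinate: the class theorem
-/

set_option autoImplicit false

namespace Pool.NJ69

open Finset Real MvPolynomial
open Pool.Agent.H49.Ent Pool.Agent.H32.Dense Pool.STK Pool.KA Pool.KSAT Pool.K2S Pool.PB
  Pool.GEN Pool.S6C Pool.JPR Pool.PLN Pool.CHT Pool.M3F
open Pool.LBT (ThrOf)
open Pool.KM7 (P2 P2_isLaw)
open Pool.STAT (PN)

variable {m : ℕ}

/-- **Closed labels of the second coordinate** on events of positive mass, at the window `w`: the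
precisions are `g0`, `g1`, the weight is at most `eta`. -/
def LabW (S : PCl m) (c : ℕ → Fin m) (w g0 g1 eta : ℝ) (K : ℕ) : Prop :=
  ∀ φ : ℝ, 0 < φ → ∃ κ₀ : ℝ, 0 < κ₀ ∧ Bas S (fun J F A =>
    ∃ (B : F.Ω → Prop) (V : Type) (z : PtT F → V) (z' : LnT F → V) (P : V → ℕ → PN)
      (g' : ℕ → ℕ) (sg : ℕ) (L : ℝ), Sub B A ∧ κ₀ * Pe F.p A ≤ Pe F.p B ∧
      |(g' 0 : ℝ) - g0 * J| ≤ φ * J ∧ |(g' 1 : ℝ) - g1 * J| ≤ φ * J ∧ g' 1 ≤ J ∧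
      (sg : ℝ) ≤ eta * J ∧ 0 ≤ L ∧ Real.log (1 + L) ≤ φ * J ∧
      NLabW F c 1 ⌊w * J⌋₊ sg g' K L B z z' P)

/-- The precision is at most one. -/
theorem LabW.le_one {S : PCl m} (hne : S.Ne) {c : ℕ → Fin m} {w g0 g1 eta : ℝ} {K : ℕ}
    (h : LabW S c w g0 g1 eta K) : g1 ≤ 1 := by
  refine le_of_forall_pos_le_add fun φ hφ => ?_
  obtain ⟨κ₀, -, τ, hτ, J₁, hb⟩ := h φ hφ
  obtain ⟨J, hJ, F, A, hA⟩ := hne τ hτ (max J₁ 1)
  obtain ⟨B, V, z, z', P, g', sg, L, -, -, -, h1, h2, -⟩ := hb J ((le_max_left _ _).trans hJ) F A hA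
  have hJ1 : (1 : ℝ) ≤ J := by exact_mod_cast (le_max_right _ _).trans hJ
  have h3 : (g' 1 : ℝ) ≤ J := by exact_mod_cast h2
  rw [abs_le] at h1
  have h4 : g1 * J ≤ (1 + φ) * J := by linarith [h1.1]
  exact le_of_mul_le_mul_right h4 (by linarith)

theorem two_pow_exp (k : ℕ) : (2 : ℝ) ^ k = Real.exp (k * Real.log 2) := by
  rw [Real.exp_nat_mul, Real.exp_log two_pos]

/-- The numbers. -/
theorem num_nj {J W₀ W₁ sg G Q : ℕ} {g : ℕ} {b h : ℝ} (hW : W₀ ≤ W₁)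
    (h74 : (74 : ℝ) ≤ ex (-(h / 8)) J)
    (hG : (G : ℝ) + (W₁ - W₀) + sg + Q + b * J + (3 * h / 8) * J ≤ g) :
    74 * (2 ^ (W₁ - W₀) * ex (-(h / 4)) J * (2 ^ sg / 2 ^ g * ex (-b) J)) * 2 ^ Q ≤
      1 / 2 ^ G := by
  have hl2 : 0 < Real.log 2 := Real.log_pos one_lt_two
  have h0 : 0 ≤ 2 ^ (W₁ - W₀) * ex (-(h / 4)) J * (2 ^ sg / 2 ^ g * ex (-b) J) * 2 ^ Q := by
    have h1 := ex_pos (-(h / 4)) J
    have h2 := ex_pos (-b) J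
    positivity
  calc 74 * (2 ^ (W₁ - W₀) * ex (-(h / 4)) J * (2 ^ sg / 2 ^ g * ex (-b) J)) * 2 ^ Q =
        74 * (2 ^ (W₁ - W₀) * ex (-(h / 4)) J * (2 ^ sg / 2 ^ g * ex (-b) J) * 2 ^ Q) := by ring
    _ ≤ ex (-(h / 8)) J *
        (2 ^ (W₁ - W₀) * ex (-(h / 4)) J * (2 ^ sg / 2 ^ g * ex (-b) J) * 2 ^ Q) :=
        mul_le_mul_of_nonneg_right h74 h0
    _ = Real.exp ((h / 8 * J + (W₁ - W₀ : ℕ) + h / 4 * J + sg - g + b * J + Q) *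
          Real.log 2) := by
        rw [two_pow_exp (W₁ - W₀), two_pow_exp sg, two_pow_exp g, two_pow_exp Q]
        unfold ex
        rw [← Real.exp_sub, ← Real.exp_add, ← Real.exp_add, ← Real.exp_add, ← Real.exp_add,
          ← Real.exp_add]
        congr 1
        ring
    _ ≤ Real.exp (-(G * Real.log 2)) := by
        refine Real.exp_le_exp.2 ?_
        rw [Nat.cast_sub hW, ← neg_mul]
        refine mul_le_mul_of_nonneg_right ?_ hl2.le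
        linarith
    _ = 1 / 2 ^ G := by
        rw [two_pow_exp, Real.exp_neg, one_div]

theorem Agr.mono {J : ℕ} {F : Fam m J} {c : ℕ → Fin m} {V : Type} {z : PtT F → V}
    {a : V → Fin 3 → ℝ} {W : ℕ} {δ δ' : ℝ} {ω ω' : F.Ω} (h : Agr F c z a W δ ω ω')
    (hδ : δ ≤ δ') : Agr F c z a W δ' ω ω' := fun s y h1 h2 => (h s y h1 h2).trans hδ

/-- **No jump of the second coordinate.** -/
theorem nj_cls {S : PCl m}
    (hmem : ∀ (τ : ℝ) (J : ℕ) (F : Fam m J) (A : F.Ω → Prop), S.St τ J F A →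
      F.Tr ∧ F.Tm (τ * J) ∧ F.Rb (τ * J) ∧ Real.exp (-(τ * J)) ≤ Pe F.p A)
    (hne : S.Ne) {θ : ℝ} {P : List (Fin m) × Fin m → ℝ → ℝ → ℝ}
    (hP : ThrOf (chsys m θ) S P) {c : ℕ → Fin m} {Nc : ℚ → ℚ → ℝ} (hact : ActB Nc S (c 0))
    {w₀ q : ℚ} {w₁ : ℝ} (h0 : 0 < w₀) (h01r : w₀ ≤ w₁) (h1r : w₁ < 1) (hq : 0 ≤ q) {e : ℝ}
    (he0 : 0 ≤ e) (h2 : H2S S w₀ w₁ e) (he : 16 * e < Nc 0 q) {g0 g1 eta b c₀ : ℝ} {K : ℕ}
    (hlab : LabW S c w₁ g0 g1 eta K) (haff : AffS S c w₁ g0 g1 K b c₀) (hc₀ : c₀ ≤ 1 / 2)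
    (hb : 0 ≤ b) (heta : 0 ≤ eta) (hth : eta + b < θ * w₀) {h : ℝ} (hh : 0 < h) :
    g1 - ((w₁ - w₀) + q + eta + b + h) ≤ bet P c 1 w₀ w₀ := by
  classical
  have hl2 : 0 < Real.log 2 := Real.log_pos one_lt_two
  have h0r : (0 : ℝ) < w₀ := by exact_mod_cast h0
  have hqr : (0 : ℝ) ≤ q := by exact_mod_cast hq
  have hg1 : g1 ≤ 1 := hlab.le_one hne
  have hlow : (w₀ : ℝ) ≤ bet P c 1 w₀ w₀ := hP.low _ _ _ h0r.le le_rfl (by linarith)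
  by_contra hcon
  push Not at hcon
  have hwq : (w₀ : ℝ) + q < 1 := by linarith
  have hq1 : q ≤ 1 := by
    have : (q : ℝ) ≤ 1 := by linarith
    exact_mod_cast this
  -- the numbers
  obtain ⟨Y, hY⟩ : ∃ Y : ℝ, Y = g1 - ((w₁ - w₀) + q + eta + b + h / 2) := ⟨_, rfl⟩
  have hYb : bet P c 1 w₀ w₀ < Y := by linarith
  have hY0 : 0 < Y := by linarith
  have hY1 : Y ≤ 1 := by linarith
  obtain ⟨e', he', he'θ⟩ := exists_between hth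
  have he'0 : 0 ≤ e' := by linarith
  have hpos : ∀ (τ : ℝ) (J : ℕ) (F : Fam m J) (A : F.Ω → Prop), S.St τ J F A →
      0 < Pe F.p A := fun τ J F A hS => lt_of_lt_of_le (Real.exp_pos _) (hmem τ J F A hS).2.2.2
  have hsep : SepS S (c 0) w₀ w₁ 0 q 1 2 := by
    refine sep_S2 hact he0 h2 le_rfl hq (by linarith) 1 2 ?_
    rw [zero_add]
    refine lt_of_eq_of_lt ?_ he
    push_cast
    ring
  obtain ⟨φ, hφ, hA⟩ := haff
  obtain ⟨φ', hφ'⟩ : ∃ φ', φ' = min φ (h / 16) := ⟨_, rfl⟩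
  have hφ'0 : 0 < φ' := by
    rw [hφ']
    exact lt_min hφ (by linarith)
  have hφ'1 : φ' ≤ φ := by
    rw [hφ']
    exact min_le_left _ _
  have hφ'2 : φ' ≤ h / 16 := by
    rw [hφ']
    exact min_le_right _ _
  obtain ⟨κ₀, hκ₀, hL⟩ := hlab φ' hφ'0
  have hline := line_in hmem c h0r.le h01r h1r (h := h / 4) (by linarith)
  have hpair := pair_agree hpos (c := c) (w₁ := w₁) h0r.le hq hwq hsep
  have h0q : w₀ ≤ 1 := by
    have : (w₀ : ℝ) ≤ 1 := by linarith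
    exact_mod_cast this
  have hno := no_unif hP c 1 (fun _ => 1) w₀ w₀ e' (Y - bet P c 1 w₀ w₀) h0.le le_rfl
    h0q he'θ (by linarith) (by linarith)
  obtain ⟨τ, hτ, J₁, H⟩ := ((((hL.and (bas_big hA hκ₀)).and
    (bas_big hline (half_pos hκ₀))).and (bas_big hpair (κ := κ₀ / 4) (by linarith))).and
    (bas_big hno (κ := κ₀ / 8) (by linarith)))
  obtain ⟨J₂, hJ₂⟩ := const_le_ex 74 (b := h / 8) (by linarith)
  obtain ⟨J₃, hJ₃⟩ := exists_nat_gt (16 / h)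
  obtain ⟨J₄, hJ₄⟩ := exists_nat_gt (1 / (e' - (eta + b)))
  obtain ⟨J₅, hJ₅⟩ := exists_nat_gt (1 / (w₀ : ℝ))
  obtain ⟨J, hJ, F, A, hS⟩ := hne τ hτ (max J₁ (max J₂ (max J₃ (max J₄ J₅))))
  have j₁ : J₁ ≤ J := by omega
  have j₂ : J₂ ≤ J := by omega
  have j₃ : (J₃ : ℝ) ≤ J := by
    have : J₃ ≤ J := by omega
    exact_mod_cast this
  have j₄ : (J₄ : ℝ) ≤ J := by
    have : J₄ ≤ J := by omega
    exact_mod_cast this
  have j₅ : (J₅ : ℝ) ≤ J := by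
    have : J₅ ≤ J := by omega
    exact_mod_cast this
  have hJ0 : (0 : ℝ) ≤ J := Nat.cast_nonneg J
  have k₃ : 1 ≤ h / 16 * J := by
    have := lt_of_lt_of_le hJ₃ j₃
    rw [div_lt_iff₀ hh] at this
    linarith
  have k₄ : 1 ≤ (e' - (eta + b)) * J := by
    have := lt_of_lt_of_le hJ₄ j₄
    rw [div_lt_iff₀ (by linarith)] at this
    linarith
  have k₅ : 1 ≤ w₀ * (J : ℝ) := by
    have := lt_of_lt_of_le hJ₅ j₅
    rw [div_lt_iff₀ h0r] at this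
    linarith
  obtain ⟨⟨⟨⟨H1, H2⟩, H3⟩, H4⟩, H5⟩ := H J j₁ F A hS
  obtain ⟨B, V, z, z', Pv, g', sg, L, hBA, hBP, hg0', hg1', hg1J, hsg, hL0, hL1, hN⟩ := H1
  have hPA : 0 ≤ Pe F.p A := Pe_nonneg F.isLaw A
  have hPB0 : 0 ≤ Pe F.p B := Pe_nonneg F.isLaw B
  have hφJ : φ' * J ≤ φ * J := mul_le_mul_of_nonneg_right hφ'1 hJ0
  obtain ⟨B₁, a, hB₁, hB₁P, hB₁c⟩ := H2 B hBA hBP V z z' Pv g' sg L (hg0'.trans hφJ)
    (hg1'.trans hφJ) hg1J hL0 (hL1.trans hφJ) hN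
  have hB₁P' : κ₀ / 2 * Pe F.p A ≤ Pe F.p B₁ := by
    have e1 : 1 / 2 * Pe F.p B ≤ (1 - c₀) * Pe F.p B :=
      mul_le_mul_of_nonneg_right (by linarith) hPB0
    linarith
  obtain ⟨B₂, hB₂, hB₂P, hB₂c⟩ := H3 B₁ (fun ω h => hBA ω (hB₁ ω h)) hB₁P' V z z' a _
    (fun ω hω => hN.cls ω (hB₁ ω hω)) (fun ω hω => (hB₁c ω hω).1)
  have hB₂P' : κ₀ / 4 * Pe F.p A ≤ Pe F.p B₂ := by linarith
  have hB₂A : Sub B₂ A := fun ω h => hBA ω (hB₁ ω (hB₂ ω h))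
  obtain ⟨hPB₂, hpr⟩ := H4 B₂ hB₂A hB₂P'
  have hag := hpr V z z' a _ (fun ω hω => hN.cls ω (hB₁ ω (hB₂ ω hω))) hB₂c
  obtain ⟨W₀, hW₀⟩ : ∃ W, W = ⌊(w₀ : ℝ) * J⌋₊ := ⟨_, rfl⟩
  obtain ⟨W₁, hW₁⟩ : ∃ W, W = ⌊w₁ * J⌋₊ := ⟨_, rfl⟩
  obtain ⟨Q, hQ⟩ : ∃ Q, Q = ⌊(q : ℝ) * J⌋₊ := ⟨_, rfl⟩
  obtain ⟨G, hG⟩ : ∃ G, G = ⌊Y * J⌋₊ := ⟨_, rfl⟩
  obtain ⟨e₀, he₀⟩ : ∃ e₀, e₀ = ⌊e' * J⌋₊ := ⟨_, rfl⟩
  rw [← hW₀, ← hW₁, ← hQ] at hag
  -- the selected sample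
  have hnon : Nonempty F.Ω := by
    by_contra hne'
    rw [not_nonempty_iff] at hne'
    rw [Pe_eq, Finset.univ_eq_empty, Finset.sum_empty] at hPB₂
    exact lt_irrefl _ hPB₂
  have hlB : IsLaw (pA F B₂) := isLaw_cond F.isLaw hPB₂
  obtain ⟨sel, hsel⟩ := Pool.JVE.pair_sel hlB.nonneg (slam F W₀) (fun ω ω' =>
    Agr F c z a W₀ (74 * (2 ^ (W₁ - W₀) * ex (-(h / 4)) J *
      (2 ^ sg / 2 ^ g' 1 * ex (-b) J)) * 2 ^ Q) ω ω')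
  have hhalf := hag.trans hsel
  obtain ⟨B₃, hB₃⟩ : ∃ B₃ : F.Ω → Prop, B₃ = fun ω => B₂ ω ∧
      Agr F c z a W₀ (74 * (2 ^ (W₁ - W₀) * ex (-(h / 4)) J *
        (2 ^ sg / 2 ^ g' 1 * ex (-b) J)) * 2 ^ Q) ω (sel (slam F W₀ ω)) := ⟨_, rfl⟩
  have hB₃P : 1 / 2 * Pe F.p B₂ ≤ Pe F.p B₃ := by
    have e1 : Pe (pA F B₂) (fun ω => Agr F c z a W₀ (74 * (2 ^ (W₁ - W₀) * ex (-(h / 4)) J *
        (2 ^ sg / 2 ^ g' 1 * ex (-b) J)) * 2 ^ Q) ω (sel (slam F W₀ ω))) =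
        Pe F.p B₃ / Pe F.p B₂ := by
      rw [hB₃]
      exact Pe_cnd _ _ _
    rw [e1, le_div_iff₀ hPB₂] at hhalf
    exact hhalf
  have hB₃A : Sub B₃ A := fun ω hω => by
    rw [hB₃] at hω
    exact hB₂A ω hω.1
  have hW₀r : (W₀ : ℝ) ≤ w₀ * J := by
    rw [hW₀]
    exact Nat.floor_le (by positivity)
  have hW₀r' : (w₀ : ℝ) * J < W₀ + 1 := by
    rw [hW₀]
    exact Nat.lt_floor_add_one _
  have hW₁r : (W₁ : ℝ) ≤ w₁ * J := by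
    rw [hW₁]
    exact Nat.floor_le (mul_nonneg (by linarith) hJ0)
  have hW01 : W₀ ≤ W₁ := by
    rw [hW₀, hW₁]
    exact Nat.floor_le_floor (mul_le_mul_of_nonneg_right h01r hJ0)
  have hQr : (Q : ℝ) ≤ q * J := by
    rw [hQ]
    exact Nat.floor_le (mul_nonneg hqr hJ0)
  have hGr : (G : ℝ) ≤ Y * J := by
    rw [hG]
    exact Nat.floor_le (mul_nonneg hY0.le hJ0)
  have hW₀1 : 1 ≤ W₀ := by
    rw [hW₀]
    exact Nat.le_floor (by exact_mod_cast k₅)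
  have hW₀J : W₀ ≤ J := by
    have : (W₀ : ℝ) ≤ J := hW₀r.trans (by nlinarith)
    exact_mod_cast this
  have hGJ : G ≤ J := by
    have : (G : ℝ) ≤ J := hGr.trans (by nlinarith)
    exact_mod_cast this
  -- the precision
  have hnum : 74 * (2 ^ (W₁ - W₀) * ex (-(h / 4)) J * (2 ^ sg / 2 ^ g' 1 * ex (-b) J)) *
      2 ^ Q ≤ 1 / 2 ^ G := by
    refine num_nj hW01 (hJ₂ J j₂) ?_
    rw [abs_le] at hg1'
    have e1 := hg1'.1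
    have e2 : φ' * J ≤ h / 16 * J := mul_le_mul_of_nonneg_right hφ'2 hJ0
    have e3 : Y * J = g1 * J - ((w₁ * J - w₀ * J) + q * J + eta * J + b * J + h / 2 * J) := by
      rw [hY]
      ring
    have e4 : h / 2 * J = 3 * h / 8 * J + h / 16 * J + h / 16 * J := by ring
    linarith
  have hpos₂ : ∀ ω, B₂ ω → |F.x ω (c 1) - af (a (z (ptr F J ω))) (F.t ω) (F.x ω (c 0))| ≤
      1 / 2 ^ G := by
    intro ω hω
    have e1 := hB₂c ω hω (F.t ω) (by rw [sub_self, abs_zero]; positivity)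
    rw [← hW₀, ← hW₁] at e1
    refine le_trans e1 (le_trans ?_ hnum)
    have e2 : (1 : ℝ) ≤ 2 ^ Q := one_le_pow₀ one_le_two
    have e3 : 0 ≤ 2 ^ (W₁ - W₀) * ex (-(h / 4)) J * (2 ^ sg / 2 ^ g' 1 * ex (-b) J) := by
      have h1 := ex_pos (-(h / 4)) J
      have h2 := ex_pos (-b) J
      positivity
    have e4 : (1 : ℝ) ≤ 74 * 2 ^ Q := by linarith
    calc 2 ^ (W₁ - W₀) * ex (-(h / 4)) J * (2 ^ sg / 2 ^ g' 1 * ex (-b) J) ≤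
          2 ^ (W₁ - W₀) * ex (-(h / 4)) J * (2 ^ sg / 2 ^ g' 1 * ex (-b) J) * (74 * 2 ^ Q) :=
          le_mul_of_one_le_right e3 e4
      _ = _ := by ring
  have hlip : ∀ ω, B₂ ω → |a (z (ptr F J ω)) 2| ≤ 2 ^ e₀ := by
    intro ω hω
    refine ((hB₁c ω (hB₂ ω hω)).2 2).trans ?_
    rw [two_pow_exp sg, two_pow_exp e₀]
    unfold ex
    rw [← Real.exp_add]
    refine Real.exp_le_exp.2 ?_
    have e1 : e' * J < e₀ + 1 := by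
      rw [he₀]
      exact Nat.lt_floor_add_one _
    have e2 : (sg : ℝ) + b * J ≤ e₀ := by
      have e3 : (e' - (eta + b)) * J = e' * J - (eta * J + b * J) := by ring
      linarith
    have e3 := mul_le_mul_of_nonneg_right e2 hl2.le
    have e4 : (sg : ℝ) * Real.log 2 + -(-b * Real.log 2 * J) = (sg + b * J) * Real.log 2 := by
      ring
    rw [e4]
    exact e3
  have hch := chn_of (F := F) (c := c) (B := B₃) (z := z) (a := a) (G := G) (e := e₀) hW₀1 hW₀J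
    sel (fun ω hω => by
      rw [hB₃] at hω
      exact hpos₂ ω hω.1) (fun ω hω => by
      rw [hB₃] at hω
      exact hω.2.mono hnum) (fun ω hω => by
      rw [hB₃] at hω
      exact hlip ω hω.1)
  refine H5 B₃ hB₃A (by linarith) W₀ W₀ e₀ (fun i => if i = 0 then W₀ - 1 else G) le_rfl
    hW₀.le hW₀.le he₀.le (fun l _ => ?_) ?_ hch
  · show (if l = 0 then W₀ - 1 else G) ≤ J
    split_ifs
    · omega
    · exact hGJ
  · show ⌊(bet P c 1 w₀ w₀ + (Y - bet P c 1 w₀ w₀)) * J⌋₊ + W₀ ≤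
      (if 1 = 0 then W₀ - 1 else G) + ⌊(w₀ : ℝ) * J⌋₊
    rw [if_neg one_ne_zero, ← hW₀]
    have e1 : bet P c 1 w₀ w₀ + (Y - bet P c 1 w₀ w₀) = Y := by ring
    rw [e1, hG]

end Pool.NJ69
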