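import Pool.Agent.H69.NJ.Cls
import Pool.Agent.H71.GEN.Nst
import Pool.Agent.H93.GEN.RowS

/-!
# No jump of the second coordinate: the thresholds of close windows

`Lb1`: the closed labels of the second coordinate at a window, for all small weights. `nj_step`: if
the labels of the window `w₁` are few bits over the exact point, given an earlier window, then the
threshold of the second coordinate at `w₁` exceeds the one at `w₀` by at most `M (w₁ - w₀)`.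
`nj_fin`: its jumps are calm.
-/

set_option autoImplicit false

namespace Pool.NJ69

open Finset Real
open Pool.Agent.H49.Ent Pool.Agent.H32.Dense Pool.STK Pool.KA Pool.KSAT Pool.K2S Pool.PB
  Pool.GEN Pool.S6C Pool.PLN Pool.CHT
open Pool.LBT (ThrOf)

variable {m : ℕ}

/-- **The closed labels of the second coordinate** at the window `w`, of precision `b₁` and of
arbitrarily small weight, and their affine form. -/
def Lb1 (S : PCl m) (c : ℕ → Fin m) (w b₁ : ℝ) : Prop :=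
  ∀ η : ℝ, 0 < η → ∃ (K : ℕ) (g0 g1 eta b c₀ : ℝ), 0 ≤ eta ∧ 0 ≤ b ∧ eta + b ≤ η ∧
    b₁ ≤ g1 + η ∧ c₀ ≤ 1 / 2 ∧ LabW S c w g0 g1 eta K ∧ AffS S c w g0 g1 K b c₀

/-- The numbers of the active coordinate on short intervals. -/
theorem act_low {N : ℚ → ℚ → ℝ} {al : ℝ} {g₀ : ℝ → ℝ} (h : ActM N al g₀) {ε : ℝ} (hε : 0 < ε)
    (hε1 : ε < 1) {q : ℚ} (hq : 0 < q) (hqg : (q : ℝ) ≤ g₀ ε) : (al - ε) * q ≤ N 0 q := by
  have h1 := h ε hε q hq hqg 1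
  by_contra hcon
  push Not at hcon
  have h2 : ((range 1).filter fun i : ℕ => N (i * (q / (1 : ℕ))) ((i + 1) * (q / (1 : ℕ))) <
      (al - ε) * ((q : ℝ) / (1 : ℕ))) = range 1 := by
    rw [Finset.filter_eq_self]
    intro i hi
    have h3 : i = 0 := by
      have := mem_range.1 hi
      omega
    subst h3
    simpa using hcon
  rw [h2, card_range] at h1
  push_cast at h1
  linarith

variable {θ : ℝ} {S : PCl m} {P : List (Fin m) × Fin m → ℝ → ℝ → ℝ}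

/-- **No jump of the second coordinate**, at a real window. -/
theorem nj_real (hmem : ∀ (τ : ℝ) (J : ℕ) (F : Fam m J) (A : F.Ω → Prop), S.St τ J F A →
      F.Tr ∧ F.Tm (τ * J) ∧ F.Rb (τ * J) ∧ Real.exp (-(τ * J)) ≤ Pe F.p A)
    (hne : S.Ne) (hP : ThrOf (chsys m θ) S P) (hθ : 0 < θ) {c : ℕ → Fin m} {Nc : ℚ → ℚ → ℝ}
    (hact : ActB Nc S (c 0)) {w₀ w₁ C : ℝ} {q : ℚ} (h0 : 0 < w₀) (h01 : w₀ ≤ w₁) (h1 : w₁ < 1)
    (hq : 0 ≤ q) (hC : 0 ≤ C) (h2 : ∀ w : ℝ, 0 < w → w < w₀ → H2S S w w₁ (C * (w₁ - w)))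
    (he : 16 * (C * (w₁ - w₀)) < Nc 0 q) {b₁ : ℝ} (hlab : Lb1 S c w₁ b₁) :
    b₁ ≤ bet P c 1 w₀ w₀ + ((w₁ - w₀) + q) := by
  refine le_of_forall_pos_le_add fun h hh => ?_
  have hθw : 0 < θ * w₀ := mul_pos hθ h0
  obtain ⟨η, hη⟩ : ∃ η, η = min (h / 8) (θ * w₀ / 2) := ⟨_, rfl⟩
  have hη0 : 0 < η := by
    rw [hη]
    exact lt_min (by linarith) (by linarith)
  have hη1 : η ≤ h / 8 := by
    rw [hη]
    exact min_le_left _ _
  have hη2 : η ≤ θ * w₀ / 2 := by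
    rw [hη]
    exact min_le_right _ _
  obtain ⟨K, g0, g1, eta, b, c₀, e0, b0, eb, g1b, hc₀, hL, hA⟩ := hlab η hη0
  obtain ⟨γ, hγ⟩ : ∃ γ, γ = min (w₀ / 4) (min (h / 8)
    ((Nc 0 q - 16 * (C * (w₁ - w₀))) / (32 * (C + 1)))) := ⟨_, rfl⟩
  have hγ0 : 0 < γ := by
    rw [hγ]
    exact lt_min (by linarith) (lt_min (by linarith) (div_pos (by linarith) (by linarith)))
  have hγ1 : γ ≤ w₀ / 4 := by
    rw [hγ]
    exact min_le_left _ _
  have hγ2 : γ ≤ h / 8 := by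
    rw [hγ]
    exact (min_le_right _ _).trans (min_le_left _ _)
  have hγ3 : γ ≤ (Nc 0 q - 16 * (C * (w₁ - w₀))) / (32 * (C + 1)) := by
    rw [hγ]
    exact (min_le_right _ _).trans (min_le_right _ _)
  rw [le_div_iff₀ (by linarith)] at hγ3
  obtain ⟨w, hw1, hw2⟩ := exists_rat_btwn (show w₀ - γ < w₀ by linarith)
  have hw0 : (0 : ℝ) < w := by linarith
  have hθw' : 3 / 4 * (θ * w₀) ≤ θ * w := by nlinarith
  have hk := nj_cls hmem hne hP hact (w₀ := w) (q := q) (w₁ := w₁) (by exact_mod_cast hw0)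
    (by linarith) h1 hq (e := C * (w₁ - w)) (mul_nonneg hC (by linarith)) (h2 w hw0 hw2)
    (by nlinarith) hL hA hc₀ b0 e0 (by linarith) (h := h / 4) (by linarith)
  have hm : bet P c 1 w w ≤ bet P c 1 w₀ w₀ :=
    (hP.law _).mono hw0.le le_rfl hw2.le hw2.le le_rfl (by linarith)
  linarith

/-- **The threshold of the second coordinate at two close windows.** -/
theorem nj_step {Nc : ℚ → ℚ → ℝ} {al : ℝ} {g₀ : ℝ → ℝ} (hal : 0 < al)
    (hg₀ : ∀ ε : ℝ, 0 < ε → 0 < g₀ ε) (hQ : ActM Nc al g₀) {C : ℝ} (hC : 0 ≤ C) :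
    ∃ M η : ℝ, 1 ≤ M ∧ 0 < η ∧ ∀ {m : ℕ} {θ : ℝ} {S : PCl m}
      {P : List (Fin m) × Fin m → ℝ → ℝ → ℝ},
      (∀ (τ : ℝ) (J : ℕ) (F : Fam m J) (A : F.Ω → Prop), S.St τ J F A →
        F.Tr ∧ F.Tm (τ * J) ∧ F.Rb (τ * J) ∧ Real.exp (-(τ * J)) ≤ Pe F.p A) →
      S.Ne → ThrOf (chsys m θ) S P → 0 < θ → ∀ {c : ℕ → Fin m}, ActB Nc S (c 0) →
      ∀ {w₀ w₁ : ℝ}, 0 < w₀ → w₀ < w₁ → w₁ < 1 → w₁ - w₀ ≤ η →
      (∀ w : ℝ, 0 < w → w < w₀ → H2S S w w₁ (C * (w₁ - w))) → ∀ {b₁ : ℝ}, Lb1 S c w₁ b₁ →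
      b₁ ≤ bet P c 1 w₀ w₀ + M * (w₁ - w₀) := by
  obtain ⟨ε, hε⟩ : ∃ ε, ε = min (al / 2) (1 / 2) := ⟨_, rfl⟩
  have hε0 : 0 < ε := by
    rw [hε]
    exact lt_min (by linarith) (by norm_num)
  have hε1 : ε ≤ al / 2 := by
    rw [hε]
    exact min_le_left _ _
  have hε2 : ε ≤ 1 / 2 := by
    rw [hε]
    exact min_le_right _ _
  obtain ⟨A, hA⟩ : ∃ A, A = 32 * (C + 1) / al := ⟨_, rfl⟩
  have hA0 : 0 < A := by
    rw [hA]
    positivity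
  have hA1 : A * al = 32 * (C + 1) := by
    rw [hA]
    field_simp
  refine ⟨1 + 2 * A, g₀ ε / (2 * A), by linarith, div_pos (hg₀ ε hε0) (by linarith), ?_⟩
  intro m θ S P hmem hne hP hθ c hact w₀ w₁ h0 h01 h1 hη h2 b₁ hlab
  have hL : 0 < w₁ - w₀ := by linarith
  rw [le_div_iff₀ (by linarith)] at hη
  have hAL : 0 < A * (w₁ - w₀) := mul_pos hA0 hL
  obtain ⟨q, hq1, hq2⟩ := exists_rat_btwn (show A * (w₁ - w₀) < 2 * A * (w₁ - w₀) by linarith)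
  have hq0 : (0 : ℝ) < q := by linarith
  have hq0' : 0 < q := by exact_mod_cast hq0
  have hlow := act_low hQ hε0 (by linarith) hq0' (by linarith)
  have h3 := nj_real hmem hne hP hθ hact h0 h01.le h1 hq0'.le hC h2 (by
    refine lt_of_lt_of_le ?_ hlow
    have e1 : al / 2 * q ≤ (al - ε) * q := mul_le_mul_of_nonneg_right (by linarith) hq0.le
    refine lt_of_lt_of_le ?_ e1
    have e2 : al / 2 * (A * (w₁ - w₀)) ≤ al / 2 * q :=
      mul_le_mul_of_nonneg_left hq1.le (by linarith)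
    refine lt_of_lt_of_le ?_ e2
    have e3 : al / 2 * (A * (w₁ - w₀)) = 16 * (C * (w₁ - w₀)) + 16 * (w₁ - w₀) := by
      calc al / 2 * (A * (w₁ - w₀)) = A * al / 2 * (w₁ - w₀) := by ring
        _ = 32 * (C + 1) / 2 * (w₁ - w₀) := by rw [hA1]
        _ = _ := by ring
    linarith) hlab
  linarith

/-- **The jumps of the second coordinate are calm.** -/
theorem nj_fin {Nc : ℚ → ℚ → ℝ} {al : ℝ} {g₀ : ℝ → ℝ} (hal : 0 < al)
    (hg₀ : ∀ ε : ℝ, 0 < ε → 0 < g₀ ε) (hQ : ActM Nc al g₀) {C : ℝ} (hC : 0 ≤ C)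
    (hmem : ∀ (τ : ℝ) (J : ℕ) (F : Fam m J) (A : F.Ω → Prop), S.St τ J F A →
      F.Tr ∧ F.Tm (τ * J) ∧ F.Rb (τ * J) ∧ Real.exp (-(τ * J)) ≤ Pe F.p A)
    (hne : S.Ne) (hP : ThrOf (chsys m θ) S P) (hθ : 0 < θ) {c : ℕ → Fin m}
    (hact : ActB Nc S (c 0)) {W : Set ℝ} {w : ℝ} (hw1 : w < 1)
    (h2 : ∃ η : ℝ, 0 < η ∧ ∀ w₀ w₁ : ℝ, 0 < w₀ → w₀ < w → w < w₁ → w₁ ∈ W → w₁ < w + η →
      w₁ < 1 → H2S S w₀ w₁ (C * (w₁ - w₀)))
    (hlab : ∃ η : ℝ, 0 < η ∧ ∀ w₁ ∈ W, w < w₁ → w₁ < w + η → w₁ < 1 →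
      Lb1 S c w₁ (bet P c 1 w₁ w₁)) :
    Pool.STR.FinW (fun w => bet P c 1 w w) W w := by
  obtain ⟨M, η, hM, hη, hstep⟩ := nj_step hal hg₀ hQ hC
  obtain ⟨η₁, hη₁, h2⟩ := h2
  obtain ⟨η₂, hη₂, hlab⟩ := hlab
  refine ⟨M, min (η / 2) (min η₁ (min η₂ (1 - w))), lt_min (by linarith) (lt_min hη₁
    (lt_min hη₂ (by linarith))), ?_⟩
  intro w₀ _ w₁ hw₁ h0 ha hb hc hd _
  have e1 := min_le_left (η / 2) (min η₁ (min η₂ (1 - w)))
  have e2 := min_le_right (η / 2) (min η₁ (min η₂ (1 - w)))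
  have e3 := min_le_left η₁ (min η₂ (1 - w))
  have e4 := min_le_right η₁ (min η₂ (1 - w))
  have e5 := min_le_left η₂ (1 - w)
  have e6 := min_le_right η₂ (1 - w)
  have h3 := hstep hmem hne hP hθ hact h0 (hb.trans hc) (by linarith) (by linarith)
    (fun w' h' h'' => h2 w' w₁ h' (h''.trans hb) hc hw₁ (by linarith) (by linarith))
    (hlab w₁ hw₁ hc (by linarith) (by linarith))
  show bet P c 1 w₁ w₁ - bet P c 1 w₀ w₀ ≤ M * (w₁ - w₀)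
  linarith

end Pool.NJ69
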