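import Mathlib

/-!
# Two planes which contain two lines through a point
-/

set_option autoImplicit false

namespace Pool.NJ69

/-- **Two planes which contain two lines through one point** are close to each other in a ball. -/
theorem plane_two {f₀ f₁ f₂ u₀ d₀ u₁ d₁ T L κ δ μ t yt s y : ℝ} (hL : 0 < L) (hκ : 0 < κ)
    (hκ1 : κ ≤ 1) (h0 : ∀ s, T ≤ s → s ≤ T + L → |f₀ + f₁ * s + f₂ * (u₀ + s * d₀)| ≤ δ)
    (h1 : ∀ s, T ≤ s → s ≤ T + L → |f₀ + f₁ * s + f₂ * (u₁ + s * d₁)| ≤ δ) (hd0 : |d₀| ≤ 1)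
    (hdd : κ ≤ |d₀ - d₁|) (ht0 : T ≤ t) (ht1 : t ≤ T + L)
    (hμ : |(u₀ + t * d₀) - (u₁ + t * d₁)| ≤ μ) (hμL : 4 * μ ≤ L * κ)
    (hyt : |yt - (u₀ + t * d₀)| ≤ μ) (hs : |s - t| ≤ L) (hy : |y - yt| ≤ 2 * L) :
    |f₀ + f₁ * s + f₂ * y| ≤ 37 * δ / κ := by
  have hδ : 0 ≤ δ := (abs_nonneg _).trans (h0 T le_rfl (by linarith))
  have hμ0 : 0 ≤ μ := (abs_nonneg _).trans hμ
  -- the far end of the window
  obtain ⟨s', hs1, hs2, hs3⟩ : ∃ s', T ≤ s' ∧ s' ≤ T + L ∧ L / 2 ≤ |s' - t| := by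
    rcases le_total (t - T) (L / 2) with h | h
    · exact ⟨T + L, by linarith, le_rfl, (by linarith : L / 2 ≤ T + L - t).trans (le_abs_self _)⟩
    · exact ⟨T, le_rfl, by linarith, by
        rw [abs_sub_comm]
        exact h.trans (le_abs_self _)⟩
  have e1 : L / 2 * κ ≤ |(s' - t) * (d₀ - d₁)| := by
    rw [abs_mul]
    exact mul_le_mul hs3 hdd hκ.le (abs_nonneg _)
  have e2 : L * κ / 4 ≤ |(u₀ + s' * d₀) - (u₁ + s' * d₁)| := by
    have e3 : (u₀ + s' * d₀) - (u₁ + s' * d₁) =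
        (s' - t) * (d₀ - d₁) + ((u₀ + t * d₀) - (u₁ + t * d₁)) := by ring
    rw [e3]
    have e4 := abs_sub_abs_le_abs_sub ((s' - t) * (d₀ - d₁)) (-((u₀ + t * d₀) - (u₁ + t * d₁)))
    rw [abs_neg, sub_neg_eq_add] at e4
    linarith
  have e3 : |f₂| * (L * κ / 4) ≤ 2 * δ := by
    refine (mul_le_mul_of_nonneg_left e2 (abs_nonneg f₂)).trans ?_
    rw [← abs_mul]
    have e4 : f₂ * ((u₀ + s' * d₀) - (u₁ + s' * d₁)) =
        (f₀ + f₁ * s' + f₂ * (u₀ + s' * d₀)) - (f₀ + f₁ * s' + f₂ * (u₁ + s' * d₁)) := by ring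
    rw [e4]
    refine (abs_sub _ _).trans ?_
    linarith [h0 s' hs1 hs2, h1 s' hs1 hs2]
  have e4 : |f₂| * L ≤ 8 * δ / κ := by
    rw [le_div_iff₀ hκ]
    linarith
  -- on the first line
  have e5 : |f₀ + f₁ * s + f₂ * (u₀ + s * d₀)| ≤ 5 * δ := by
    have a1 := h0 T le_rfl (by linarith)
    have a2 := h0 (T + L) (by linarith) le_rfl
    obtain ⟨B, hB⟩ : ∃ B, B = f₁ + f₂ * d₀ := ⟨_, rfl⟩
    have a3 : |B| * L ≤ 2 * δ := by
      have : B * L = (f₀ + f₁ * (T + L) + f₂ * (u₀ + (T + L) * d₀)) -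
          (f₀ + f₁ * T + f₂ * (u₀ + T * d₀)) := by
        rw [hB]
        ring
      have h2 : |B| * L = |B * L| := by rw [abs_mul, abs_of_pos hL]
      rw [h2, this]
      refine (abs_sub _ _).trans ?_
      linarith
    have a4 : f₀ + f₁ * s + f₂ * (u₀ + s * d₀) = (f₀ + f₁ * T + f₂ * (u₀ + T * d₀)) +
        B * (s - T) := by
      rw [hB]
      ring
    have a5 : |s - T| ≤ 2 * L := by
      have : s - T = (s - t) + (t - T) := by ring
      rw [this]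
      refine (abs_add_le _ _).trans ?_
      have : |t - T| ≤ L := by
        rw [abs_of_nonneg (by linarith)]
        linarith
      linarith
    rw [a4]
    refine (abs_add_le _ _).trans ?_
    rw [abs_mul]
    have a6 : |B| * |s - T| ≤ |B| * (2 * L) := mul_le_mul_of_nonneg_left a5 (abs_nonneg _)
    linarith
  have e6 : |y - (u₀ + s * d₀)| ≤ 4 * L := by
    have : y - (u₀ + s * d₀) = (y - yt) + (yt - (u₀ + t * d₀)) - (s - t) * d₀ := by ring
    rw [this]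
    have a1 : |(s - t) * d₀| ≤ L := by
      rw [abs_mul]
      calc |s - t| * |d₀| ≤ L * 1 := mul_le_mul hs hd0 (abs_nonneg _) hL.le
        _ = L := mul_one _
    have a2 : μ ≤ L := by
      have : L * κ ≤ L * 1 := mul_le_mul_of_nonneg_left hκ1 hL.le
      linarith
    have a3 := abs_sub ((y - yt) + (yt - (u₀ + t * d₀))) ((s - t) * d₀)
    have a4 := abs_add_le (y - yt) (yt - (u₀ + t * d₀))
    linarith
  have e7 : f₀ + f₁ * s + f₂ * y =
      (f₀ + f₁ * s + f₂ * (u₀ + s * d₀)) + f₂ * (y - (u₀ + s * d₀)) := by ring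
  have e8 : |f₂ * (y - (u₀ + s * d₀))| ≤ 32 * δ / κ := by
    rw [abs_mul]
    refine (mul_le_mul_of_nonneg_left e6 (abs_nonneg _)).trans ?_
    have : 32 * δ / κ = 4 * (8 * δ / κ) := by ring
    rw [this]
    linarith
  have e9 : 5 * δ ≤ 5 * δ / κ := by
    rw [le_div_iff₀ hκ]
    have : 5 * δ * κ ≤ 5 * δ * 1 := mul_le_mul_of_nonneg_left hκ1 (by linarith)
    linarith
  rw [e7]
  refine (abs_add_le _ _).trans ?_
  have e10 : 37 * δ / κ = 5 * δ / κ + 32 * δ / κ := by ring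
  rw [e10]
  linarith

end Pool.NJ69
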