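import Pool.Agent.H69.NJ.Fin
import Pool.Agent.H24.PLN.Afs
import Pool.Agent.H53.JM.Own2
import Pool.Agent.H5.M3F.Wgt
import Pool.Agent.H2.GEN.Lab2q

/-!
# No jump of the second coordinate: the closed labels

`lb1_of`: at a good window at which the active coordinate is exact, the second coordinate has
closed labels of arbitrarily small weight, whose precision is its threshold.
-/

set_option autoImplicit false

namespace Pool.NJ69

open Finset Real MvPolynomial
open Pool.Agent.H49.Ent Pool.Agent.H32.Dense Pool.STK Pool.KA Pool.KSAT Pool.K2S Pool.PB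
  Pool.STAT Pool.STAT.CLO Pool.GEN Pool.S6C Pool.M3F Pool.CHT
open Pool.LBT (ThrOf)
open Pool.PLN (AffS)
open Pool.FRN (Wgd UpA wgd_dense)
open Pool.JPN (Dn1 law_up)

variable {m : ℕ} {θ : ℝ} {S : PCl m} {P : List (Fin m) × Fin m → ℝ → ℝ → ℝ}

/-- **Chains of universal degree** of the active and of the second coordinate, at a good window. -/
theorem chn_u (hne : S.Ne) (hP : ThrOf (chsys m θ) S P) (hθ : 0 < θ) (hS : TmH S)
    {c : ℕ → Fin m} (hc : c 0 ≠ c 1) {w : ℝ} (hw : 0 < w) (hw1 : w < 1) (hwd : w ∈ Wgd P)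
    (hd : Dn1 (bet P c 1) w) (hown : bet P c 0 w w ≤ w) (hvis : bet P c 1 w w + θ * w < 1) :
    ∃ (D : ℕ) (C : ℝ), 1 ≤ C ∧ ∀ de : ℕ → ℝ, 0 < de 0 → C * de 0 < de 1 → de 0 < w → de 1 < w →
      ∀ e : ℝ, 0 < e → e ≤ θ * w / 4 → ∃ K₁ : ℝ, 0 < K₁ ∧ Bas S (fun J F A =>
        ∃ B : F.Ω → Prop, Sub B A ∧ Pe F.p A ≤ K₁ * Pe F.p B ∧
        Chn c 2 (fun _ => D) w w (e + C * de 1) (fun l => bet P c l w w - de l) J F B) := by
  classical
  obtain ⟨V, o₀, ho₀, hV⟩ := hd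
  have hθw : 0 < θ * w := mul_pos hθ hw
  obtain ⟨s, hs⟩ : ∃ s : ℝ, s = min o₀ (w / 2) := ⟨_, rfl⟩
  have hs0 : 0 < s := by
    rw [hs]
    exact lt_min ho₀ (by positivity)
  have hs1 : s ≤ o₀ := by rw [hs]; exact min_le_left _ _
  have hs2 : s ≤ w / 2 := by rw [hs]; exact min_le_right _ _
  obtain ⟨Sl, hSl⟩ : ∃ Sl : ℕ, Sl = max ⌈V⌉₊ (max ⌈2 / s⌉₊ 1) := ⟨_, rfl⟩
  have hSl1 : 1 ≤ Sl := by rw [hSl]; exact (le_max_right _ _).trans (le_max_right _ _)
  have hSlV : V ≤ Sl := by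
    have h1 : ⌈V⌉₊ ≤ Sl := by rw [hSl]; exact le_max_left _ _
    exact (Nat.le_ceil V).trans (by exact_mod_cast h1)
  have hSls : 2 ≤ Sl * s := by
    have h1 : ⌈2 / s⌉₊ ≤ Sl := by
      rw [hSl]
      exact (le_max_left _ _).trans (le_max_right _ _)
    have h2 : 2 / s ≤ Sl := (Nat.le_ceil _).trans (by exact_mod_cast h1)
    rwa [div_le_iff₀ hs0] at h2
  have hSl1' : (1 : ℝ) ≤ Sl := by exact_mod_cast hSl1
  obtain ⟨D, C, hC, hlab⟩ := lab2q 2 Sl (by norm_num) hSl1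
  refine ⟨D, C, hC, fun de hde0 hde1 hdw0 hdw1 e he he' => ?_⟩
  have hinj : Set.InjOn c (Set.Iio 2) := by
    intro i hi j hj hij
    have hi' : i < 2 := hi
    have hj' : j < 2 := hj
    interval_cases i <;> interval_cases j
    · rfl
    · exact absurd hij hc
    · exact absurd hij.symm hc
    · rfl
  have hown' : ∀ x : ℝ, 0 < x → x ≤ w → bet P c 0 x x ≤ x := by
    intro x hx hxw
    have h1 : min 1 (bet P c 0 x x + (w - x)) ≤ bet P c 0 w w :=
      law_up (hP.law ((List.range 0).map c, c 0)) hx.le hxw hw1.le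
    rcases min_le_iff.1 (h1.trans hown) with h2 | h2
    · linarith
    · linarith
  have h := hlab (P := P) (θ := θ) (c := c) (a := w) (w := w) (v := w - s) (ε := 0)
    (vs := fun _ => 0) (e₀ := fun _ => θ * w / 4) (Q := {κ | w - κ ∈ Wgd P}) hP hθ hS hinj
    (by linarith) (by linarith) le_rfl hw1 (fun _ _ => le_rfl) le_rfl (by
      rw [Set.mem_ofPred_eq, sub_zero]
      exact hwd) (by
      intro x y hx hxy hy
      obtain ⟨v, h1, h2, h3⟩ := wgd_dense hP (x := w - y) (y := w - x) (by linarith)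
        (by linarith) (by linarith)
      refine ⟨w - v, ?_, by linarith, by linarith⟩
      rw [Set.mem_ofPred_eq, sub_sub_cancel]
      exact h3) (by
      intro κ hκ hκ0 hκs
      have hk1 : w / 2 ≤ w - κ := by linarith
      have hk2 : w - κ ≤ w := by linarith
      have hk0 : 0 < w - κ := by linarith
      have hup : UpA P (w - κ) (w - κ) := Wgd.self hκ (by linarith)
      refine ⟨Pts.of_up hne hP hθ hS hinj le_rfl (by positivity) (fun _ _ => hk0)
        (fun _ _ => le_rfl) (fun _ _ => by linarith) (fun _ _ => ?_)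
        (fun _ _ i _ l _ => hup.rc (by linarith) c l i) (fun _ _ i _ => hup.up c i)
        (fun _ _ i hi => ?_) fun _ _ i hi l hl => ?_, ?_, fun l hl => ?_⟩
      · nlinarith
      · have hθκ : θ * (w - κ) ≤ θ * w := mul_le_mul_of_nonneg_left hk2 hθ.le
        have hlow := hP.low ((List.range 1).map c, c 1) w w hw.le le_rfl hw1.le
        interval_cases i
        · have h1 := hown' _ hk0 hk2
          have h2 : w ≤ bet P c 1 w w := hlow
          linarith
        · have h1 : bet P c 1 (w - κ) (w - κ) ≤ bet P c 1 w w :=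
            (hP.law _).mono hk0.le le_rfl hk2 hk2 le_rfl hw1.le
          linarith
      · have hl0 : l = 0 := by omega
        subst hl0
        rw [add_zero]
        refine (hown' _ hk0 hk2).trans ?_
        exact hP.low _ _ _ hk0.le le_rfl (by linarith)
      · rw [mul_zero]
        positivity
      · interval_cases l
        · have h1 : w - κ ≤ bet P c 0 (w - κ) (w - κ) := hP.low _ _ _ hk0.le le_rfl (by linarith)
          nlinarith
        · have h1 := hV κ hκ0 (by linarith)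
          have h2 : V * κ ≤ Sl * κ := mul_le_mul_of_nonneg_right hSlV hκ0
          linarith) (by
      have e1 : w - (w - s) = s := by ring
      rw [e1]
      exact hSls) de hde0 (by rw [mul_zero]; exact hde0) (fun l hl => by
      have hl0 : l = 0 := by omega
      subst hl0
      exact hde1) (fun l hl => by
      interval_cases l
      · exact hdw0
      · exact hdw1) e (by
      rw [mul_zero]
      exact he) he'
  exact h

/-- **The closed labels of the second coordinate** at a good window. -/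
theorem lb1_of (hmem : ∀ (τ : ℝ) (J : ℕ) (F : Fam m J) (A : F.Ω → Prop), S.St τ J F A →
      F.Tr ∧ F.Tm (τ * J) ∧ F.Rb (τ * J) ∧ Real.exp (-(τ * J)) ≤ Pe F.p A)
    (hx : ∀ (τ : ℝ) (J : ℕ) (F : Fam m J) (A : F.Ω → Prop), S.St τ J F A →
      ∀ ω i, |F.x ω i| ≤ 2)
    (hne : S.Ne) (hP : ThrOf (chsys m θ) S P) (hθ : 0 < θ) {N : ℚ → ℚ → ℝ} {al : ℝ}
    (hal : 0 < al) (hQ : ActQ N al) {c : ℕ → Fin m} (hc : c 0 ≠ c 1) (hact : ActB N S (c 0))
    {w : ℝ} (hw : 0 < w) (hw1 : w < 1) (hwd : w ∈ Wgd P) (hd : Dn1 (bet P c 1) w)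
    (hown : bet P c 0 w w ≤ w) (hvis : bet P c 1 w w + θ * w < 1)
    (hex : ∀ ρ : ℝ, 0 < ρ → ExvY S w (fun J F ω (i : Fin 1) => F.X J ω (c i))
      ((1 - w) - ρ)) : Lb1 S c w (bet P c 1 w w) := by
  classical
  have hS : TmH S := tmH_of_reg hmem
  intro η hη
  have hθw : 0 < θ * w := mul_pos hθ hw
  obtain ⟨b₁, hb₁⟩ : ∃ b₁, b₁ = bet P c 1 w w := ⟨_, rfl⟩
  have hb₁w : w ≤ b₁ := by
    rw [hb₁]
    exact hP.low _ _ _ hw.le le_rfl hw1.le
  have hb₀ : bet P c 0 w w = w := le_antisymm hown (hP.low _ _ _ hw.le le_rfl hw1.le)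
  obtain ⟨eta, heta⟩ : ∃ eta, eta = min (η / 2) (θ * w) := ⟨_, rfl⟩
  have het0 : 0 < eta := by
    rw [heta]
    exact lt_min (by linarith) hθw
  have het1 : eta ≤ η / 2 := by
    rw [heta]
    exact min_le_left _ _
  have het2 : eta ≤ θ * w := by
    rw [heta]
    exact min_le_right _ _
  rw [← hb₁] at hvis ⊢
  obtain ⟨γ, hγ⟩ : ∃ γ, γ = min (eta / 2) w := ⟨_, rfl⟩
  have hγ0 : 0 < γ := by
    rw [hγ]
    exact lt_min (by linarith) hw
  have hγ1 : γ ≤ eta / 2 := by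
    rw [hγ]
    exact min_le_left _ _
  have hγ2 : γ ≤ w := by
    rw [hγ]
    exact min_le_right _ _
  obtain ⟨D, C, hC, hchn⟩ := chn_u hne hP hθ hS hc hw hw1 hwd hd hown (by rw [← hb₁]; exact hvis)
  obtain ⟨D', hM⟩ := m3f_clsw 1
  obtain ⟨sh, sh₂, K', S₀, E₀, hsh, hK', hS₀, hE₀, hM⟩ := hM D
  obtain ⟨gr, hgr⟩ : ∃ gr : ℕ → ℝ, gr = fun l => if l = 0 then w else b₁ + eta := ⟨_, rfl⟩
  have hgr0 : gr 0 = w := by rw [hgr]; exact if_pos rfl
  have hgr1 : gr 1 = b₁ + eta := by rw [hgr]; exact if_neg one_ne_zero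
  have hM := hM S hmem c w gr γ (by
      intro i hi j hj hij
      interval_cases i <;> interval_cases j
      · rfl
      · exact absurd hij hc
      · exact absurd hij.symm hc
      · rfl) hw.le hγ0 (fun l hl => by
      interval_cases l
      · rw [hgr0]
      · rw [hgr1]
        linarith) (fun l hl => by
      interval_cases l
      · rw [hgr0]
        exact hγ2
      · rw [hgr1]
        linarith) (fun l l' h1 h2 => by
      interval_cases l' <;> interval_cases l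
      · exact le_rfl
      · rw [hgr0, hgr1]
        linarith
      · exact le_rfl) (fun l hl => by
      interval_cases l
      rw [hgr0, hgr1]
      linarith) (by
      rw [hgr1]
      linarith) (by
      rw [hgr1]
      linarith) (fun ρ hρ => by
      rw [Finset.sum_range_one, hgr0]
      exact hex ρ hρ)
  refine ⟨K', w, b₁ + eta, eta, η / 2, 1 / 2, het0.le, by linarith, by linarith, by linarith,
    le_rfl, ?_, Pool.PLA.affs K' hS.1 hS.2 hx hal hQ hact hw.le hw1 le_rfl hw1 (by linarith)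
      (by linarith) (by norm_num)⟩
  intro φ hφ
  obtain ⟨φ₂, hφ₂, hbas⟩ := hM (φ / 4) (by linarith)
  obtain ⟨φ₃, hφ₃⟩ : ∃ φ₃, φ₃ = min φ φ₂ := ⟨_, rfl⟩
  have hφ30 : 0 < φ₃ := by
    rw [hφ₃]
    exact lt_min hφ hφ₂
  have hφ31 : φ₃ ≤ φ := by
    rw [hφ₃]
    exact min_le_left _ _
  have hφ32 : φ₃ ≤ φ₂ := by
    rw [hφ₃]
    exact min_le_right _ _
  -- the losses
  obtain ⟨x, hxd⟩ : ∃ x, x = min (w / 2) (φ₃ / (8 * C)) := ⟨_, rfl⟩
  have hx0 : 0 < x := by
    rw [hxd]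
    exact lt_min (by linarith) (div_pos hφ30 (by linarith))
  have hx1 : x ≤ w / 2 := by
    rw [hxd]
    exact min_le_left _ _
  have hx2 : x * (8 * C) ≤ φ₃ := by
    have h1 : x ≤ φ₃ / (8 * C) := by
      rw [hxd]
      exact min_le_right _ _
    rwa [le_div_iff₀ (by linarith)] at h1
  have hx3 : x ≤ φ₃ / 8 := by nlinarith
  have hx4 : C * x ≤ φ₃ / 8 := by linarith
  obtain ⟨de, hde⟩ : ∃ de : ℕ → ℝ, de = fun l => if l = 0 then x / (2 * C) else x := ⟨_, rfl⟩
  have hde0 : de 0 = x / (2 * C) := by rw [hde]; exact if_pos rfl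
  have hde1 : de 1 = x := by rw [hde]; exact if_neg one_ne_zero
  have hde00 : 0 < de 0 := by
    rw [hde0]
    exact div_pos hx0 (by linarith)
  have hde01 : de 0 ≤ x := by
    rw [hde0, div_le_iff₀ (by linarith)]
    nlinarith
  obtain ⟨e, he⟩ : ∃ e, e = min (θ * w / 4) (φ₃ / 8) := ⟨_, rfl⟩
  have he0 : 0 < e := by
    rw [he]
    exact lt_min (by linarith) (by linarith)
  have he1 : e ≤ θ * w / 4 := by
    rw [he]
    exact min_le_left _ _
  have he2 : e ≤ φ₃ / 8 := by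
    rw [he]
    exact min_le_right _ _
  obtain ⟨K₁, hK₁, hch⟩ := hchn de hde00 (by
      rw [hde0, hde1, mul_div_assoc', div_lt_iff₀ (by linarith)]
      nlinarith) (by linarith) (by rw [hde1]; linarith) e he0 he1
  obtain ⟨J₁, hJ₁⟩ := exists_nat_gt (16 / φ₃)
  obtain ⟨J₂, hJ₂⟩ := exists_nat_gt ((sh : ℝ) * 4 / φ₃)
  have hK'0 : (0 : ℝ) < K' := by exact_mod_cast hK'
  refine ⟨(K₁ * (4 * (K' * 5 ^ (m + 1))))⁻¹, by positivity,
    Bas.mono (max J₁ J₂) (hch.and (bas_ev hbas (inv_pos.2 hK₁))) ?_⟩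
  rintro J hJ F A ⟨⟨B, hBA, hBP, G, H, hok⟩, hm3⟩
  have hJ0 : (0 : ℝ) ≤ J := Nat.cast_nonneg J
  have j₁ : (J₁ : ℝ) ≤ J := by exact_mod_cast (le_max_left _ _).trans hJ
  have j₂ : (J₂ : ℝ) ≤ J := by exact_mod_cast (le_max_right _ _).trans hJ
  have k₁ : 1 ≤ φ₃ / 16 * J := by
    have := lt_of_lt_of_le hJ₁ j₁
    rw [div_lt_iff₀ hφ30] at this
    linarith
  have k₂ : (sh : ℝ) ≤ φ₃ / 4 * J := by
    have := lt_of_lt_of_le hJ₂ j₂
    rw [div_lt_iff₀ hφ30] at this
    linarith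
  obtain ⟨gN, hgN⟩ : ∃ gN : ℕ → ℕ, gN = fun l => ⌊(bet P c l w w - de l) * J⌋₊ := ⟨_, rfl⟩
  obtain ⟨E, hE⟩ : ∃ E : ℕ, E = ⌊(e + C * de 1) * J⌋₊ := ⟨_, rfl⟩
  obtain ⟨sgW, hsgW⟩ : ∃ sgW : ℕ, sgW = ⌊eta * J⌋₊ := ⟨_, rfl⟩
  rw [← hgN, ← hE] at hok
  have hg0l : (gN 0 : ℝ) ≤ w * J := by
    rw [hgN]
    show ((⌊(bet P c 0 w w - de 0) * J⌋₊ : ℕ) : ℝ) ≤ w * J
    rw [hb₀]
    refine (Nat.floor_le (mul_nonneg (by linarith) hJ0)).trans ?_
    exact mul_le_mul_of_nonneg_right (by linarith) hJ0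
  have hg0u : (w - x) * J < gN 0 + 1 := by
    rw [hgN]
    show (w - x) * J < ((⌊(bet P c 0 w w - de 0) * J⌋₊ : ℕ) : ℝ) + 1
    rw [hb₀]
    refine lt_of_le_of_lt ?_ (Nat.lt_floor_add_one _)
    exact mul_le_mul_of_nonneg_right (by linarith) hJ0
  have hg1l : (gN 1 : ℝ) ≤ b₁ * J := by
    rw [hgN]
    show ((⌊(bet P c 1 w w - de 1) * J⌋₊ : ℕ) : ℝ) ≤ b₁ * J
    rw [← hb₁, hde1]
    refine (Nat.floor_le (mul_nonneg (by linarith) hJ0)).trans ?_
    exact mul_le_mul_of_nonneg_right (by linarith) hJ0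
  have hg1u : (b₁ - x) * J < gN 1 + 1 := by
    rw [hgN]
    show (b₁ - x) * J < ((⌊(bet P c 1 w w - de 1) * J⌋₊ : ℕ) : ℝ) + 1
    rw [← hb₁, hde1]
    exact Nat.lt_floor_add_one _
  have hE1 : (E : ℝ) ≤ φ₃ / 4 * J := by
    rw [hE]
    refine (Nat.floor_le (mul_nonneg (by rw [hde1]; nlinarith) hJ0)).trans ?_
    exact mul_le_mul_of_nonneg_right (by rw [hde1]; linarith) hJ0
  have hsg1 : (sgW : ℝ) ≤ eta * J := by
    rw [hsgW]
    exact Nat.floor_le (mul_nonneg het0.le hJ0)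
  have hsg2 : eta * J < sgW + 1 := by
    rw [hsgW]
    exact Nat.lt_floor_add_one _
  have hb1J : w * J ≤ b₁ * J := mul_le_mul_of_nonneg_right hb₁w hJ0
  have hxJ : x * J ≤ φ₃ / 8 * J := mul_le_mul_of_nonneg_right hx3 hJ0
  have hφJ : φ₃ * J ≤ φ₂ * J := mul_le_mul_of_nonneg_right hφ32 hJ0
  have hφJ' : φ₃ * J ≤ φ * J := mul_le_mul_of_nonneg_right hφ31 hJ0
  obtain ⟨g', hg'⟩ : ∃ g' : ℕ → ℕ, g' = Function.update gN 1 (gN 1 + sgW) := ⟨_, rfl⟩
  have hg'0 : g' 0 = gN 0 := by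
    rw [hg']
    exact Function.update_of_ne zero_ne_one _ _
  have hg'1 : g' 1 = gN 1 + sgW := by
    rw [hg']
    exact Function.update_self _ _ _
  -- the slopes
  have hsup : (Finset.Icc 0 1).sup gN ≤ gN 0 + gN 1 ∧ (Finset.Icc 0 1).sup gN = max (gN 0) (gN 1) := by
    have e1 : (Finset.Icc 0 1 : Finset ℕ) = {0, 1} := by decide
    rw [e1, Finset.sup_insert, Finset.sup_singleton]
    refine ⟨sup_le (by omega) (by omega), rfl⟩
  have hnlp : nlp gN 0 1 = max (gN 0) (gN 1) - gN 1 := by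
    unfold nlp
    rw [hsup.2]
  obtain ⟨e', he'⟩ : ∃ e', e' = E + nlp gN 0 1 := ⟨_, rfl⟩
  have he'1 : (e' : ℝ) ≤ φ₂ * J := by
    have h1 : (nlp gN 0 1 : ℝ) ≤ φ₃ / 8 * J + 1 := by
      rw [hnlp]
      rcases le_total (gN 0) (gN 1) with h2 | h2
      · rw [max_eq_right h2, Nat.sub_self, Nat.cast_zero]
        positivity
      · rw [max_eq_left h2, Nat.cast_sub h2]
        linarith
    rw [he', Nat.cast_add]
    linarith
  have hnbx : ∀ {y : PtT F} {t : ℝ} {b : Option (Fin m) → ℝ} {i : ℕ}, i ≤ 1 →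
      NBx c (G y) g' ⌊w * J⌋₊ t i b → NBx c (G y) gN ⌊w * J⌋₊ t i b := by
    intro y t b i hi hb
    refine ⟨hb.1, fun l hl => ?_⟩
    have h1 := hb.2 l hl
    have hl0 : l = 0 := by omega
    subst hl0
    rwa [hg'0] at h1
  have hpw : (2 : ℝ) ^ sgW / 2 ^ g' 1 = 1 / 2 ^ gN 1 := by
    rw [hg'1, pow_add, div_eq_div_iff (by positivity) (by positivity)]
    ring
  obtain ⟨g₂, g'', B', L, V, z, z', Pv, Qv, T, kf, a1, a2, a3, a4, a5, a6, a7, a8, a9, a10, a11,
    a12, -⟩ := hm3 B hBA (by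
      rw [inv_mul_le_iff₀ hK₁]
      exact hBP) e' sgW g' (fun _ => D) G H (fun l hl => by
      interval_cases l
      · rw [hg'0, hgr0, abs_le]
        constructor <;> linarith
      · rw [hg'1, hgr1, abs_le]
        push_cast
        constructor <;> linarith) he'1 (fun _ _ => le_rfl)
      ⟨hok.degG, hok.degH, hok.depG, hok.depH, fun ω hω i hi => by
        have hi0 : i = 0 := by omega
        subst hi0
        rw [hg'0]
        exact hok.pos ω hω 0 (by norm_num), fun ω hω i hi b hb => by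
        have hi0 : i = 0 := by omega
        subst hi0
        rw [hg'0]
        exact hok.agr ω hω 0 (by norm_num) b (hnbx (by norm_num) hb), fun ω hω i hi b hb l hl => by
        omega⟩ (fun ω hω => by
        rw [hpw]
        exact hok.pos ω hω 1 (by norm_num)) (fun ω hω b hb => by
        rw [hpw]
        exact hok.agr ω hω 1 (by norm_num) b (hnbx le_rfl hb)) (fun ω hω b hb l hl => by
        have hl0 : l = 0 := by omega
        subst hl0
        refine (hok.lip ω hω 1 (by norm_num) b (hnbx le_rfl hb) 0 hl).trans ?_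
        rw [← pow_add, ← he']
        exact pow_le_pow_right₀ one_le_two (by omega))
  refine ⟨B', V, z, z', Pv, g₂, sgW, L, fun ω hω => hBA ω (a8 ω hω), ?_, ?_, ?_, ?_, hsg1, a10,
    a11.trans (mul_le_mul_of_nonneg_right (by linarith) hJ0), a12⟩
  · rw [inv_mul_le_iff₀ (by positivity)]
    calc Pe F.p A ≤ K₁ * Pe F.p B := hBP
      _ ≤ K₁ * (4 * (K' * 5 ^ (m + 1)) * Pe F.p B') := mul_le_mul_of_nonneg_left a9 hK₁.le
      _ = _ := by ring
  · have h1 := a3 0 one_pos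
    have h2 := a4 0 one_pos
    rw [hg'0] at h1 h2
    have h3 : (g₂ 0 : ℝ) = gN 0 - sh := by
      rw [h1, Nat.cast_sub h2]
    rw [h3, abs_le]
    have h4 : (0 : ℝ) ≤ sh := Nat.cast_nonneg _
    constructor <;> linarith
  · rw [hgr1] at a6
    have h1 : g₂ 1 ≤ g' 1 := by omega
    have h2 : (g₂ 1 : ℝ) ≤ gN 1 + sgW := by
      rw [hg'1] at h1
      exact_mod_cast h1
    rw [abs_le]
    have h3 : φ / 4 * J ≤ φ * J := mul_le_mul_of_nonneg_right (by linarith) hJ0
    have h4 : (b₁ + eta - φ / 4) * J = (b₁ + eta) * J - φ / 4 * J := by ring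
    constructor <;> linarith
  · omega

end Pool.NJ69
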