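import Pool.Agent.H53.JM.Tilt
import Pool.Agent.H37.M2C.Main
import Pool.Agent.H1.PLN.Stm

/-!
# The lines lie in their planes on long windows

`line_in`: in a class, closed affine labels of the second coordinate at the window `w₁` contain the
lines over the window `w₀`, up to the factor `2 ^ (W₁ - W₀)`.
-/

set_option autoImplicit false

namespace Pool.NJ69

open Finset Real
open Pool.Agent.H49.Ent Pool.Agent.H32.Dense Pool.STK Pool.KA Pool.KSAT Pool.K2S Pool.PB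
  Pool.GEN Pool.S6C Pool.JPR Pool.PLN

variable {m : ℕ}

/-- The times are full given the line and the window. -/
theorem time_bas {S : PCl m}
    (hmem : ∀ (τ : ℝ) (J : ℕ) (F : Fam m J) (A : F.Ω → Prop), S.St τ J F A →
      F.Tr ∧ F.Tm (τ * J) ∧ F.Rb (τ * J) ∧ Real.exp (-(τ * J)) ≤ Pe F.p A)
    {w : ℝ} (hw : w ≤ 1) {δ : ℝ} (hδ : 0 < δ) : Bas S (fun J F A => 0 < Pe F.p A ∧
      ((J : ℝ) - ⌊w * J⌋₊) * Real.log 2 - δ * J ≤
        CH (Pool.Agent.H49.Ent.cond F.p A True) F.T (slam F ⌊w * J⌋₊)) := by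
  refine ⟨δ / 6, by positivity, 0, fun J _ F A hS => ?_⟩
  obtain ⟨hTr, hTm, hRb, hPe⟩ := hmem _ J F A hS
  have hA : 0 < Pe F.p A := lt_of_lt_of_le (Real.exp_pos _) hPe
  have hWJ : ⌊w * J⌋₊ ≤ J := by
    have h1 : ⌊w * (J : ℝ)⌋₊ ≤ ⌊(J : ℝ)⌋₊ := Nat.floor_le_floor (by
      have : (0 : ℝ) ≤ J := Nat.cast_nonneg J
      nlinarith)
    rwa [Nat.floor_natCast] at h1
  have h1 := Pool.STPA.time_event F hTr hTm hRb hA hPe hWJ
  exact ⟨hA, by linarith⟩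

/-- Few times in each class: small entropy. -/
theorem few_times {Ω T : Type} [Fintype Ω] {p : Ω → ℝ} (hp : IsLaw p) (X : Ω → ℕ) (W : Ω → T)
    (R : ℕ) (h : ∀ ω ω', 0 < p ω → 0 < p ω' → W ω = W ω' → X ω ≤ X ω' + R) :
    CH p X W ≤ Real.log (2 * R + 1) := by
  classical
  obtain ⟨S, hS⟩ : ∃ S : T → Finset ℕ, S = fun b =>
      (univ.filter fun ω => 0 < p ω ∧ W ω = b).image X := ⟨_, rfl⟩
  have h1 := CH_le_card hp.nonneg hp.sum_one X W S (fun ω hω => by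
    rw [hS]
    exact Finset.mem_image.2 ⟨ω, Finset.mem_filter.2 ⟨Finset.mem_univ _, hω, rfl⟩, rfl⟩)
  refine h1.trans ?_
  rw [← Ex_const hp.sum_one (Real.log (2 * R + 1))]
  refine Ex_mono hp.nonneg fun ω hω => ?_
  have h2 : S (W ω) ⊆ Finset.Icc (X ω - R) (X ω + R) := by
    intro x hx
    rw [hS] at hx
    obtain ⟨ω', hω', hx'⟩ := Finset.mem_image.1 hx
    have h3 := (Finset.mem_filter.1 hω').2
    have h4 := h ω' ω h3.1 hω h3.2
    have h5 := h ω ω' hω h3.1 h3.2.symm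
    rw [Finset.mem_Icc, ← hx']
    omega
  have h3 : (S (W ω)).card ≤ 2 * R + 1 := by
    refine (Finset.card_le_card h2).trans ?_
    rw [Nat.card_Icc]
    omega
  have h4 : (0 : ℝ) < (S (W ω)).card := by
    have : 0 < (S (W ω)).card := Finset.card_pos.2 ⟨X ω, by
      rw [hS]
      exact Finset.mem_image.2 ⟨ω, Finset.mem_filter.2 ⟨Finset.mem_univ _, hω, rfl⟩, rfl⟩⟩
    exact_mod_cast this
  refine Real.log_le_log h4 ?_
  exact_mod_cast h3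

/-- **Spread times**: the line and the window of a typical sample have a sample at a distance. -/
theorem spread {S : PCl m}
    (hmem : ∀ (τ : ℝ) (J : ℕ) (F : Fam m J) (A : F.Ω → Prop), S.St τ J F A →
      F.Tr ∧ F.Tm (τ * J) ∧ F.Rb (τ * J) ∧ Real.exp (-(τ * J)) ≤ Pe F.p A)
    {w : ℝ} (hw0 : 0 ≤ w) (hw : w ≤ 1) {h : ℝ} (hh : 0 < h) (hhw : w + h ≤ 1) :
    Bas S (fun J F A => ∃ B : F.Ω → Prop, Sub B A ∧ Pe F.p A ≤ 2 * Pe F.p B ∧ 0 < Pe F.p A ∧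
      ∀ ω, B ω → ∃ ω', A ω' ∧ slam F ⌊w * J⌋₊ ω' = slam F ⌊w * J⌋₊ ω ∧
        1 / 2 ^ ⌊w * J⌋₊ * ex h J ≤ |F.t ω' - F.t ω|) := by
  classical
  have hl2 : 0 < Real.log 2 := Real.log_pos one_lt_two
  have hδ : 0 < h * Real.log 2 / 2 := by positivity
  have hb := bas_big (time_bas hmem hw hδ) (κ := 1 / 2) (by norm_num)
  obtain ⟨J₀, hJ₀⟩ := exists_nat_gt (Real.log 3 / (h * Real.log 2 / 2))
  refine ((time_bas hmem hw hδ).and hb).mono J₀ ?_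
  rintro J hJ F A ⟨⟨hA, -⟩, hB⟩
  have hJr : (J₀ : ℝ) ≤ J := by exact_mod_cast hJ
  have hJ0 : (0 : ℝ) ≤ J := Nat.cast_nonneg J
  have hJ1 : Real.log 3 < h * Real.log 2 / 2 * J := by
    have h3 := lt_of_lt_of_le hJ₀ hJr
    rw [div_lt_iff₀ hδ] at h3
    linarith
  obtain ⟨W, hW⟩ : ∃ W, W = ⌊w * J⌋₊ := ⟨_, rfl⟩
  rw [← hW] at hB ⊢
  have hWJ : W ≤ J := by
    have h1 : ⌊w * (J : ℝ)⌋₊ ≤ ⌊(J : ℝ)⌋₊ := Nat.floor_le_floor (by nlinarith)
    rw [Nat.floor_natCast] at h1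
    rw [hW]
    exact h1
  have hWr : (W : ℝ) ≤ w * J := by
    rw [hW]
    exact Nat.floor_le (by positivity)
  -- the distance in units
  obtain ⟨ρ, hρ⟩ : ∃ ρ : ℝ, ρ = 2 ^ (J - W) * ex h J := ⟨_, rfl⟩
  have hex : ex h J = Real.exp (-(h * Real.log 2 * J)) := rfl
  have hρlog : ρ = Real.exp (((J : ℝ) - W) * Real.log 2 - h * Real.log 2 * J) := by
    rw [hρ, hex, sub_eq_add_neg, Real.exp_add]
    congr 1
    rw [← Nat.cast_sub hWJ, mul_comm, Real.exp_mul, Real.exp_log two_pos, Real.rpow_natCast]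
  have hρ1 : 1 ≤ ρ := by
    rw [hρlog, Real.one_le_exp_iff]
    have h2 : 0 ≤ ((J : ℝ) - W - h * J) * Real.log 2 := by
      refine mul_nonneg ?_ hl2.le
      nlinarith
    linarith
  obtain ⟨Bad, hBad⟩ : ∃ Bad : F.Ω → Prop, Bad = fun ω => A ω ∧ ∀ ω', A ω' →
      slam F W ω' = slam F W ω → F.T ω' ≤ F.T ω + ⌊ρ⌋₊ := ⟨_, rfl⟩
  have hsub : Sub Bad A := fun ω hω => by
    rw [hBad] at hω
    exact hω.1
  have hPB : Pe F.p Bad < 1 / 2 * Pe F.p A := by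
    by_contra hcon
    push Not at hcon
    obtain ⟨hP, hc⟩ := hB Bad hsub hcon
    have hl := isLaw_cond F.isLaw hP
    have h1 := few_times hl F.T (slam F W) ⌊ρ⌋₊ (fun ω ω' hω hω' e => by
      have b1 := ((cond_pos_iff F.isLaw.nonneg Bad True ω).1 hω).2
      have b2 := ((cond_pos_iff F.isLaw.nonneg Bad True ω').1 hω').2
      have b1' : Bad ω := of_eq_true b1
      have b2' : Bad ω' := of_eq_true b2
      rw [hBad] at b1' b2'
      exact b2'.2 ω b1'.1 e)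
    have h2 : Real.log (2 * ⌊ρ⌋₊ + 1) ≤ Real.log 3 + (((J : ℝ) - W) * Real.log 2 -
        h * Real.log 2 * J) := by
      have h3 : (2 * (⌊ρ⌋₊ : ℝ) + 1) ≤ 3 * ρ := by
        have := Nat.floor_le (by linarith : 0 ≤ ρ)
        linarith
      have h4 : Real.log (3 * ρ) = Real.log 3 + (((J : ℝ) - W) * Real.log 2 -
          h * Real.log 2 * J) := by
        rw [Real.log_mul (by norm_num) (by linarith), hρlog, Real.log_exp]
      rw [← h4]
      exact Real.log_le_log (by positivity) h3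
    linarith
  refine ⟨fun ω => A ω ∧ ¬ Bad ω, fun ω hω => hω.1, ?_, hA, fun ω hω => ?_⟩
  · have h1 : Pe F.p A ≤ Pe F.p Bad + Pe F.p (fun ω => A ω ∧ ¬ Bad ω) :=
      pe_le_add F.isLaw.nonneg fun ω _ hω => by
        by_cases hb : Bad ω
        · exact Or.inl hb
        · exact Or.inr ⟨hω, hb⟩
    linarith
  · have h1 : ∃ ω', A ω' ∧ slam F W ω' = slam F W ω ∧ F.T ω + ⌊ρ⌋₊ < F.T ω' := by
      by_contra hcon
      push Not at hcon
      refine hω.2 ?_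
      rw [hBad]
      exact ⟨hω.1, fun ω' h1 h2 => hcon ω' h1 h2⟩
    obtain ⟨ω', h2, h3, h4⟩ := h1
    refine ⟨ω', h2, h3, ?_⟩
    have h5 : ρ ≤ (F.T ω' : ℝ) - F.T ω := by
      have h6 := (Nat.lt_floor_add_one ρ).le
      have h7 : ((F.T ω + ⌊ρ⌋₊ + 1 : ℕ) : ℝ) ≤ F.T ω' := by exact_mod_cast h4
      push_cast at h7
      linarith
    have h6 : F.t ω' - F.t ω = ((F.T ω' : ℝ) - F.T ω) / 2 ^ J := by
      unfold Fam.t
      ring
    rw [h6]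
    refine le_trans ?_ (le_abs_self _)
    rw [le_div_iff₀ (by positivity)]
    refine le_trans (le_of_eq ?_) h5
    rw [hρ]
    have h7 : (2 : ℝ) ^ J = 2 ^ (J - W) * 2 ^ W := by
      rw [← pow_add, Nat.sub_add_cancel hWJ]
    rw [h7]
    field_simp

/-- An affine function which is small at two points. -/
theorem aff_ext {α β t t' s e ρ r : ℝ} (he : |α + β * t| ≤ e) (he' : |α + β * t'| ≤ e)
    (hρ : 0 < ρ) (ht : ρ ≤ |t' - t|) (hs : |s - t| ≤ r) :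
    |α + β * s| ≤ e + 2 * e / ρ * r := by
  have h0 : 0 ≤ e := (abs_nonneg _).trans he
  have h1 : |β| * |t' - t| ≤ 2 * e := by
    rw [← abs_mul]
    have : β * (t' - t) = (α + β * t') - (α + β * t) := by ring
    rw [this]
    refine (abs_sub _ _).trans ?_
    linarith
  have h2 : |β| ≤ 2 * e / ρ := by
    rw [le_div_iff₀ hρ]
    exact (mul_le_mul_of_nonneg_left ht (abs_nonneg β)).trans h1
  have h3 : α + β * s = (α + β * t) + β * (s - t) := by ring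
  rw [h3]
  refine (abs_add_le _ _).trans (add_le_add he ?_)
  rw [abs_mul]
  exact mul_le_mul h2 hs (abs_nonneg _) (by positivity)

/-- **The lines lie in their planes** on the windows of length `2 ^ (-W₀)`. -/
theorem line_in {S : PCl m}
    (hmem : ∀ (τ : ℝ) (J : ℕ) (F : Fam m J) (A : F.Ω → Prop), S.St τ J F A →
      F.Tr ∧ F.Tm (τ * J) ∧ F.Rb (τ * J) ∧ Real.exp (-(τ * J)) ≤ Pe F.p A)
    (c : ℕ → Fin m) {w₀ w₁ : ℝ} (h0 : 0 ≤ w₀) (h01 : w₀ ≤ w₁) (hw1 : w₁ < 1) {h : ℝ}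
    (hh : 0 < h) :
    Bas S (fun J F A => ∀ (V : Type) (z : PtT F → V) (z' : LnT F → V) (a : V → Fin 3 → ℝ)
      (ε : ℝ), (∀ ω, A ω → z (ptr F J ω) = z' (slam F ⌊w₁ * J⌋₊ ω)) →
      (∀ ω, A ω → |F.x ω (c 1) - af (a (z (ptr F J ω))) (F.t ω) (F.x ω (c 0))| ≤ ε) →
      ∃ B : F.Ω → Prop, Sub B A ∧ Pe F.p A ≤ 2 * Pe F.p B ∧
        ∀ ω, B ω → ∀ s : ℝ, |s - F.t ω| ≤ 1 / 2 ^ ⌊w₀ * J⌋₊ →
          |F.u ω (c 1) + s * F.d ω (c 1) -
            af (a (z (ptr F J ω))) s (F.u ω (c 0) + s * F.d ω (c 0))| ≤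
            2 ^ (⌊w₁ * J⌋₊ - ⌊w₀ * J⌋₊) * ex (-h) J * ε) := by
  classical
  obtain ⟨h', hh'⟩ : ∃ h', h' = min (h / 2) (1 - w₁) := ⟨_, rfl⟩
  have h'0 : 0 < h' := by
    rw [hh']
    exact lt_min (by linarith) (by linarith)
  have h'1 : h' ≤ h / 2 := by
    rw [hh']
    exact min_le_left _ _
  have h'2 : w₁ + h' ≤ 1 := by
    have : h' ≤ 1 - w₁ := by
      rw [hh']
      exact min_le_right _ _
    linarith
  obtain ⟨J₀, hJ₀⟩ := const_le_ex 3 (half_pos hh)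
  refine (spread hmem (h0.trans h01) hw1.le h'0 h'2).mono J₀ ?_
  rintro J hJ F A ⟨B, hBA, hPB, hA, hB⟩ V z z' a ε hz hpos
  refine ⟨B, hBA, hPB, fun ω hω s hs => ?_⟩
  obtain ⟨W₁, hW₁⟩ : ∃ W, W = ⌊w₁ * J⌋₊ := ⟨_, rfl⟩
  obtain ⟨W₀, hW₀⟩ : ∃ W, W = ⌊w₀ * J⌋₊ := ⟨_, rfl⟩
  have hW : W₀ ≤ W₁ := by
    rw [hW₀, hW₁]
    exact Nat.floor_le_floor (mul_le_mul_of_nonneg_right h01 (Nat.cast_nonneg J))
  rw [← hW₁] at hB hz ⊢
  rw [← hW₀] at hs ⊢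
  obtain ⟨ω', hA', hsl, ht⟩ := hB ω hω
  have hAω := hBA ω hω
  have hl : F.l ω' = F.l ω := (Prod.ext_iff.1 hsl).1
  have hu : F.u ω' = F.u ω := (Prod.ext_iff.1 hl).1
  have hd : F.d ω' = F.d ω := (Prod.ext_iff.1 hl).2
  have hlab : z (ptr F J ω') = z (ptr F J ω) := by
    rw [hz ω' hA', hz ω hAω, hsl]
  obtain ⟨b, hb⟩ : ∃ b, b = a (z (ptr F J ω)) := ⟨_, rfl⟩
  obtain ⟨α, hα⟩ : ∃ α : ℝ, α = F.u ω (c 1) - b 0 - b 2 * F.u ω (c 0) := ⟨_, rfl⟩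
  obtain ⟨β, hβ⟩ : ∃ β : ℝ, β = F.d ω (c 1) - b 1 - b 2 * F.d ω (c 0) := ⟨_, rfl⟩
  have hf : ∀ s : ℝ, F.u ω (c 1) + s * F.d ω (c 1) -
      af b s (F.u ω (c 0) + s * F.d ω (c 0)) = α + β * s := by
    intro s
    rw [hα, hβ]
    unfold af
    ring
  have e1 : |α + β * F.t ω| ≤ ε := by
    rw [← hf]
    have := hpos ω hAω
    rw [← hb] at this
    exact this
  have e2 : |α + β * F.t ω'| ≤ ε := by
    rw [← hf]
    have := hpos ω' hA'
    rw [hlab, ← hb] at this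
    unfold Fam.x at this
    rw [hu, hd] at this
    exact this
  rw [← hb, hf]
  have hρ : (0 : ℝ) < 1 / 2 ^ W₁ * ex h' J := mul_pos (by positivity) (ex_pos _ _)
  refine (aff_ext e1 e2 hρ ht hs).trans ?_
  have hε : 0 ≤ ε := (abs_nonneg _).trans e1
  have h3 := hJ₀ J hJ
  have h4 : ex (-(h / 2)) J ≤ ex (-h) J := ex_le (by linarith) J
  have h5 : 2 * ε / (1 / 2 ^ W₁ * ex h' J) * (1 / 2 ^ W₀) =
      2 * (2 ^ (W₁ - W₀) * ex (-h') J * ε) := by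
    rw [ex_neg]
    have h6 : (2 : ℝ) ^ W₁ = 2 ^ (W₁ - W₀) * 2 ^ W₀ := by
      rw [← pow_add, Nat.sub_add_cancel hW]
    rw [h6]
    have := ex_pos h' J
    field_simp
  rw [h5]
  have h7 : ex (-h') J ≤ ex (-(h / 2)) J := ex_le (by linarith) J
  have h8 : (1 : ℝ) ≤ 2 ^ (W₁ - W₀) := one_le_pow₀ one_le_two
  have h9 : ex (-h) J = ex (-(h / 2)) J * ex (-(h / 2)) J := by
    rw [← ex_add]
    congr 1
    ring
  have h10 : 0 < ex (-(h / 2)) J := ex_pos _ _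
  have h11 : 0 < ex (-h') J := ex_pos _ _
  have h12 : (1 : ℝ) ≤ ex (-(h / 2)) J := by linarith
  calc ε + 2 * (2 ^ (W₁ - W₀) * ex (-h') J * ε) ≤
      2 ^ (W₁ - W₀) * ex (-(h / 2)) J * ε + 2 * (2 ^ (W₁ - W₀) * ex (-(h / 2)) J * ε) := by
        refine add_le_add ?_ ?_
        · have : 1 ≤ 2 ^ (W₁ - W₀) * ex (-(h / 2)) J :=
            one_le_mul_of_one_le_of_one_le h8 h12
          nlinarith
        · refine mul_le_mul_of_nonneg_left (mul_le_mul_of_nonneg_right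
            (mul_le_mul_of_nonneg_left h7 (by positivity)) hε) two_pos.le
    _ = 2 ^ (W₁ - W₀) * ex (-(h / 2)) J * ε * 3 := by ring
    _ ≤ 2 ^ (W₁ - W₀) * ex (-(h / 2)) J * ε * ex (-(h / 2)) J := by
        refine mul_le_mul_of_nonneg_left h3 ?_
        positivity
    _ = 2 ^ (W₁ - W₀) * ex (-h) J * ε := by
        rw [h9]
        ring

end Pool.NJ69
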