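import Pool.Agent.H69.NJ.Line
import Pool.Agent.H69.NJ.Geo
import Pool.Agent.H69.PLN.Sep

/-!
# No jump of the second coordinate

`pair_agree`: two independent samples of a line have nearly the same plane near the first one.
`chn_of`: closed planes which agree with the plane of a selected sample are a chain of two-sided
labels. `nj_cls`: the threshold of the second coordinate at the window `w₀` is at least the
precision of the closed labels at the window `w₁`, up to small losses.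
-/

set_option autoImplicit false

namespace Pool.NJ69

open Finset Real MvPolynomial
open Pool.Agent.H49.Ent Pool.Agent.H32.Dense Pool.STK Pool.KA Pool.KSAT Pool.K2S Pool.PB
  Pool.GEN Pool.S6C Pool.JPR Pool.PLN Pool.CHT Pool.M3F
open Pool.LBT (ThrOf)
open Pool.KM7 (P2 P2_isLaw)
open Pool.KSM (iid iid_law iid_pos)

variable {m J : ℕ}

/-! ### The planes of two samples of a line -/

/-- The planes of two samples agree near the first one. -/
def Agr (F : Fam m J) (c : ℕ → Fin m) {V : Type} (z : PtT F → V) (a : V → Fin 3 → ℝ) (W : ℕ)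
    (δ : ℝ) (ω ω' : F.Ω) : Prop :=
  ∀ s y : ℝ, |s - F.t ω| ≤ 1 / 2 ^ W → |y - (F.X J ω (c 0) : ℝ) / 2 ^ J| ≤ 2 * (1 / 2 ^ W) →
    |af (a (z (ptr F J ω))) s y - af (a (z (ptr F J ω'))) s y| ≤ δ

/-- Two lines through one exact point. -/
theorem agr_of {F : Fam m J} {c : ℕ → Fin m} {A : F.Ω → Prop} {V : Type} {z : PtT F → V}
    {a : V → Fin 3 → ℝ} {W Q : ℕ} {ε : ℝ} (hWJ : W ≤ J) (hQ : W + Q + 2 ≤ J)
    (hin : ∀ ω, A ω → ∀ s : ℝ, |s - F.t ω| ≤ 1 / 2 ^ W →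
      |F.u ω (c 1) + s * F.d ω (c 1) -
        af (a (z (ptr F J ω))) s (F.u ω (c 0) + s * F.d ω (c 0))| ≤ ε)
    {v u u' : Fin (1 + 1) → F.Ω} (hA : ∀ i, A (u i)) (hA' : ∀ i, A (u' i))
    (hs : slam F W (u 1) = slam F W (u 0)) (hs' : slam F W (u' 1) = slam F W (u' 0))
    (hp : ptr F J (u 0) = ptr F J (v 0)) (hp' : ptr F J (u' 0) = ptr F J (v 0))
    (hz : ∀ i, z (ptr F J (u i)) = z (ptr F J (v i)))
    (hz' : ∀ i, z (ptr F J (u' i)) = z (ptr F J (v i)))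
    (hd : 1 / 2 ^ Q ≤ |F.d (u 0) (c 0) - F.d (u' 0) (c 0)|) :
    Agr F c z a W (74 * ε * 2 ^ Q) (v 0) (v 1) := by
  intro s y hsb hyb
  obtain ⟨L, hL⟩ : ∃ L : ℝ, L = 1 / 2 ^ W := ⟨_, rfl⟩
  have hL0 : 0 < L := by rw [hL]; positivity
  have hκ0 : (0 : ℝ) < 1 / 2 ^ Q := by positivity
  have hκ1 : (1 : ℝ) / 2 ^ Q ≤ 1 := by
    rw [div_le_one (by positivity)]
    exact one_le_pow₀ one_le_two
  -- the points
  have hX : ∀ w w' : F.Ω, ptr F J w = ptr F J w' → F.X J w = F.X J w' ∧ F.T w = F.T w' := by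
    intro w w' h
    have h1 := (Prod.ext_iff.1 h).1
    have h2 := (Prod.ext_iff.1 h).2
    exact ⟨h1, (Prod.ext_iff.1 h2).1⟩
  have hT : F.T (u 0) = F.T (v 0) := (hX _ _ hp).2
  have hT' : F.T (u' 0) = F.T (v 0) := (hX _ _ hp').2
  have ht : F.t (u 0) = F.t (v 0) := by
    unfold Fam.t
    rw [hT]
  have ht' : F.t (u' 0) = F.t (v 0) := by
    unfold Fam.t
    rw [hT']
  obtain ⟨T, hTe⟩ : ∃ T : ℝ, T = (F.T1 W (v 0) : ℝ) / 2 ^ W := ⟨_, rfl⟩
  -- the windows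
  have hwin : ∀ w : F.Ω, F.T1 W w = F.T1 W (v 0) → ∀ s : ℝ, T ≤ s → s ≤ T + L →
      |s - F.t w| ≤ L := by
    intro w hw s h1 h2
    have h3 := T1_real F hWJ w
    rw [hw] at h3
    have h4 : (0 : ℝ) < 2 ^ W := by positivity
    have h5 : T ≤ F.t w := by
      rw [hTe, div_le_iff₀ h4]
      linarith [h3.1]
    have h6 : F.t w ≤ T + L := by
      rw [hTe, hL, ← add_div, le_div_iff₀ h4]
      linarith [h3.2]
    rw [abs_le]
    constructor <;> linarith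
  have hT1 : ∀ w w' : F.Ω, F.T w = F.T w' → F.T1 W w = F.T1 W w' := by
    intro w w' h
    unfold Fam.T1
    rw [h]
  have hl : ∀ w w' : F.Ω, slam F W w = slam F W w' →
      F.u w = F.u w' ∧ F.d w = F.d w' ∧ F.T1 W w = F.T1 W w' := by
    intro w w' h
    have h1 := (Prod.ext_iff.1 h).1
    have h2 := (Prod.ext_iff.1 (Prod.ext_iff.1 h).2).2
    exact ⟨(Prod.ext_iff.1 h1).1, (Prod.ext_iff.1 h1).2, h2⟩
  -- the two lines
  have key : ∀ x : Fin (1 + 1) → F.Ω, (∀ i, A (x i)) → slam F W (x 1) = slam F W (x 0) →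
      F.T (x 0) = F.T (v 0) → (∀ i, z (ptr F J (x i)) = z (ptr F J (v i))) →
      ∀ s, T ≤ s → s ≤ T + L →
      |af (a (z (ptr F J (v 0)))) s (F.u (x 0) (c 0) + s * F.d (x 0) (c 0)) -
        af (a (z (ptr F J (v 1)))) s (F.u (x 0) (c 0) + s * F.d (x 0) (c 0))| ≤ 2 * ε := by
    intro x hx hsx hTx hzx s h1 h2
    obtain ⟨e1, e2, e3⟩ := hl _ _ hsx
    have h3 := hin (x 0) (hx 0) s (by
      rw [← hL]
      exact hwin _ (hT1 _ _ hTx) s h1 h2)
    have h4 := hin (x 1) (hx 1) s (by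
      rw [← hL]
      exact hwin _ (e3.trans (hT1 _ _ hTx)) s h1 h2)
    rw [hzx 0] at h3
    rw [hzx 1, e1, e2] at h4
    rw [abs_le] at h3 h4 ⊢
    constructor <;> linarith [h3.1, h3.2, h4.1, h4.2]
  have k1 := key u hA hs hT hz
  have k2 := key u' hA' hs' hT' hz'
  obtain ⟨a₀, ha₀⟩ : ∃ a₀, a₀ = a (z (ptr F J (v 0))) := ⟨_, rfl⟩
  obtain ⟨a₁, ha₁⟩ : ∃ a₁, a₁ = a (z (ptr F J (v 1))) := ⟨_, rfl⟩
  rw [← ha₀, ← ha₁] at k1 k2 ⊢
  have haf : ∀ s y : ℝ, af a₀ s y - af a₁ s y =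
      (a₀ 0 - a₁ 0) + (a₀ 1 - a₁ 1) * s + (a₀ 2 - a₁ 2) * y := by
    intro s y
    unfold af
    ring
  simp only [haf] at k1 k2 ⊢
  -- the distance at the common point
  have hμ1 := near_pt F (c 0) (u 0)
  have hμ2 := near_pt F (c 0) (u' 0)
  have hX1 : F.X J (u 0) = F.X J (v 0) := (hX _ _ hp).1
  have hX2 : F.X J (u' 0) = F.X J (v 0) := (hX _ _ hp').1
  have hfl1 := Int.floor_le ((2 : ℝ) ^ J * F.x (u 0) (c 0))
  have hfl2 := Int.lt_floor_add_one ((2 : ℝ) ^ J * F.x (u 0) (c 0))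
  have hfl3 := Int.floor_le ((2 : ℝ) ^ J * F.x (u' 0) (c 0))
  have hfl4 := Int.lt_floor_add_one ((2 : ℝ) ^ J * F.x (u' 0) (c 0))
  have hfe : ⌊(2 : ℝ) ^ J * F.x (u 0) (c 0)⌋ = ⌊(2 : ℝ) ^ J * F.x (u' 0) (c 0)⌋ := by
    have h1 : F.X J (u 0) (c 0) = F.X J (u' 0) (c 0) := by rw [hX1, hX2]
    exact h1
  rw [← hfe] at hfl3 hfl4
  have hJ0 : (0 : ℝ) < 2 ^ J := by positivity
  have hμ : |(F.u (u 0) (c 0) + F.t (v 0) * F.d (u 0) (c 0)) -
      (F.u (u' 0) (c 0) + F.t (v 0) * F.d (u' 0) (c 0))| ≤ 1 / 2 ^ J := by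
    have h1 : (F.u (u 0) (c 0) + F.t (v 0) * F.d (u 0) (c 0)) -
      (F.u (u' 0) (c 0) + F.t (v 0) * F.d (u' 0) (c 0)) =
        F.x (u 0) (c 0) - F.x (u' 0) (c 0) := by
      unfold Fam.x
      rw [ht, ht']
    rw [h1]
    have h2 : |(2 : ℝ) ^ J * (F.x (u 0) (c 0) - F.x (u' 0) (c 0))| ≤ 1 := by
      rw [abs_le]
      constructor <;> linarith
    rw [abs_mul, abs_of_pos hJ0] at h2
    rw [le_div_iff₀ hJ0]
    linarith
  have hμL : 4 * (1 / 2 ^ J) ≤ L * (1 / 2 ^ Q) := by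
    rw [hL]
    have h1 : (1 : ℝ) / 2 ^ W * (1 / 2 ^ Q) = 4 * (1 / 2 ^ (W + Q + 2)) := by
      rw [pow_add, pow_add]
      field_simp
      norm_num
    rw [h1]
    have h2 := inv_mono hQ
    linarith
  have hyt : |(F.X J (v 0) (c 0) : ℝ) / 2 ^ J -
      (F.u (u 0) (c 0) + F.t (v 0) * F.d (u 0) (c 0))| ≤ 1 / 2 ^ J := by
    have h1 : F.u (u 0) (c 0) + F.t (v 0) * F.d (u 0) (c 0) = F.x (u 0) (c 0) := by
      unfold Fam.x
      rw [ht]
    rw [h1, abs_sub_comm, ← hX1]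
    exact hμ1
  have hv3 := T1_real F hWJ (v 0)
  have hv4 : (0 : ℝ) < 2 ^ W := by positivity
  have ht0 : T ≤ F.t (v 0) := by
    rw [hTe, div_le_iff₀ hv4]
    linarith [hv3.1]
  have ht1 : F.t (v 0) ≤ T + L := by
    rw [hTe, hL, ← add_div, le_div_iff₀ hv4]
    linarith [hv3.2]
  have hfin := plane_two hL0 hκ0 hκ1 k1 k2 (F.dir (u 0) (c 0)) hd ht0 ht1 hμ hμL hyt
    (by rw [hL]; exact hsb) (by rw [hL]; exact hyb)
  refine hfin.trans (le_of_eq ?_)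
  have h2Q : (0 : ℝ) < 2 ^ Q := by positivity
  field_simp
  ring

/-- **The planes of two samples of a line agree near the first one**, in a class. -/
theorem pair_agree {S : PCl m} (hpos : ∀ (τ : ℝ) (J : ℕ) (F : Fam m J) (A : F.Ω → Prop),
      S.St τ J F A → 0 < Pe F.p A) {c : ℕ → Fin m} {w₀ w₁ : ℝ} {q : ℚ} (h0 : 0 ≤ w₀)
    (hq : 0 ≤ q) (hwq : w₀ + q < 1) (hsep : SepS S (c 0) w₀ w₁ 0 q 1 2) :
    Bas S (fun J F A => 0 < Pe F.p A ∧ ∀ (V : Type) (z : PtT F → V) (z' : LnT F → V)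
      (a : V → Fin 3 → ℝ) (ε : ℝ), (∀ ω, A ω → z (ptr F J ω) = z' (slam F ⌊w₁ * J⌋₊ ω)) →
      (∀ ω, A ω → ∀ s : ℝ, |s - F.t ω| ≤ 1 / 2 ^ ⌊w₀ * J⌋₊ →
        |F.u ω (c 1) + s * F.d ω (c 1) -
          af (a (z (ptr F J ω))) s (F.u ω (c 0) + s * F.d ω (c 0))| ≤ ε) →
      1 / 2 ≤ Pe (p2 F A ⌊w₀ * J⌋₊) (fun v =>
        Agr F c z a ⌊w₀ * J⌋₊ (74 * ε * 2 ^ ⌊(q : ℝ) * J⌋₊) v.1 v.2)) := by
  classical
  have hpb : Bas S (fun _ F A => 0 < Pe F.p A) := ⟨1, one_pos, 0, fun J _ F A hA =>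
    hpos 1 J F A hA⟩
  obtain ⟨J₀, hJ₀⟩ := exists_nat_gt (2 / (1 - (w₀ + q)))
  refine (hpb.and hsep).mono J₀ ?_
  rintro J hJ F A ⟨hA, hS⟩
  refine ⟨hA, fun V z z' a ε hz hin => ?_⟩
  have hJr : (J₀ : ℝ) ≤ J := by exact_mod_cast hJ
  have hJ0 : (0 : ℝ) ≤ J := Nat.cast_nonneg J
  have hqr : (0 : ℝ) ≤ q := by exact_mod_cast hq
  have h1wq : 0 < 1 - (w₀ + q) := by linarith
  have hJ1 : 2 < (1 - (w₀ + q)) * J := by
    have h3 := lt_of_lt_of_le hJ₀ hJr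
    rw [div_lt_iff₀ h1wq] at h3
    linarith
  obtain ⟨W, hW⟩ : ∃ W, W = ⌊w₀ * J⌋₊ := ⟨_, rfl⟩
  obtain ⟨Q, hQ⟩ : ∃ Q, Q = ⌊(q : ℝ) * J⌋₊ := ⟨_, rfl⟩
  have hWr : (W : ℝ) ≤ w₀ * J := by
    rw [hW]
    exact Nat.floor_le (mul_nonneg h0 hJ0)
  have hQr : (Q : ℝ) ≤ q * J := by
    rw [hQ]
    exact Nat.floor_le (mul_nonneg hqr hJ0)
  have hWQ : W + Q + 2 ≤ J := by
    have : ((W + Q + 2 : ℕ) : ℝ) ≤ J := by
      push_cast
      nlinarith
    exact_mod_cast this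
  rw [← hW, ← hQ]
  rw [← hW] at hin
  have hl : IsLaw (pA F A) := isLaw_cond F.isLaw hA
  have hml : IsLaw (pn F A W 1) := iid_law hl
  by_contra hcon
  push Not at hcon
  have h1 := Pool.PLN26.iid_rel (n := 1) (P := pA F A) (W := slam F W) hl.nonneg
    (by decide : (0 : Fin (1 + 1)) ≠ 1) (fun ω ω' => Agr F c z a W (74 * ε * 2 ^ Q) ω ω')
  have h2 := pe_not hml (fun w => Agr F c z a W (74 * ε * 2 ^ Q) (w 0) (w 1))
  have h3 : Pe (pn F A W 1) (fun w => Agr F c z a W (74 * ε * 2 ^ Q) (w 0) (w 1)) < 1 / 2 :=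
    lt_of_eq_of_lt h1 hcon
  have h4 : 1 / 2 ≤ Pe (pn F A W 1) (fun w => ¬ Agr F c z a W (74 * ε * 2 ^ Q) (w 0) (w 1)) := by
    linarith
  obtain ⟨v, hEv, -, hv⟩ := hS V z z' hz _ (by rw [← hW]; exact h4)
  obtain ⟨u, hu⟩ := hv 0
  rw [← hW] at hu
  refine hEv ?_
  have hsup : ∀ x : Fin (1 + 1) → F.Ω, 0 < pn F A W 1 x → (∀ i, A (x i)) ∧
      slam F W (x 1) = slam F W (x 0) := by
    intro x hx
    have h5 := fun i => iid_pos (P := pA F A) (W := slam F W) hl.nonneg hx i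
    refine ⟨fun i => ?_, (h5 1).2⟩
    exact of_eq_true ((cond_pos_iff F.isLaw.nonneg A True (x i)).1 (h5 i).1).2
  obtain ⟨a1, a2⟩ := hsup _ (hu 0).1.2.1
  obtain ⟨b1, b2⟩ := hsup _ (hu 1).1.2.1
  have hsepd := (hu 0).2 1 (by decide)
  have hcast : ⌊(((0 : ℚ) : ℝ) + q) * J⌋₊ = Q := by
    rw [hQ]
    congr 1
    push_cast
    ring
  rw [hcast] at hsepd
  exact agr_of (by omega) hWQ hin a1 b1 a2 b2 (hu 0).1.2.2.1 (hu 1).1.2.2.1
    (hu 0).1.2.2.2.1 (hu 1).1.2.2.2.1 hsepd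

/-! ### The chain -/

/-- The plane as a polynomial. -/
noncomputable def plp (c : ℕ → Fin m) (b : Fin 3 → ℝ) : MvPolynomial (Option (Fin m)) ℝ :=
  C (b 0) + C (b 1) * X none + C (b 2) * X (some (c 0))

theorem plp_eval (c : ℕ → Fin m) (b : Fin 3 → ℝ) (x : Option (Fin m) → ℝ) :
    eval x (plp c b) = af b (x none) (x (some (c 0))) := by
  unfold plp af
  simp

theorem plp_deg (c : ℕ → Fin m) (b : Fin 3 → ℝ) : (plp c b).totalDegree ≤ 1 := by
  unfold plp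
  refine (totalDegree_add _ _).trans (max_le ((totalDegree_add _ _).trans (max_le ?_ ?_)) ?_)
  · rw [totalDegree_C]
    exact Nat.zero_le _
  · refine (totalDegree_mul _ _).trans ?_
    rw [totalDegree_C, totalDegree_X]
  · refine (totalDegree_mul _ _).trans ?_
    rw [totalDegree_C, totalDegree_X]

theorem plp_pd (c : ℕ → Fin m) (b : Fin 3 → ℝ) :
    pderiv (some (c 0)) (plp c b) = C (b 2) := by
  classical
  unfold plp
  rw [map_add, map_add, pderiv_C, pderiv_C_mul, pderiv_C_mul, pderiv_X_self,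
    pderiv_X_of_ne (by simp : (none : Option (Fin m)) ≠ some (c 0))]
  simp

/-- **Closed planes which agree with the plane of a selected sample** are a chain. -/
theorem chn_of {F : Fam m J} {c : ℕ → Fin m} {B : F.Ω → Prop} {V : Type} {z : PtT F → V}
    {a : V → Fin 3 → ℝ} {W G e : ℕ} (hW1 : 1 ≤ W) (hWJ : W ≤ J) (sel : LnT F → F.Ω)
    (hpos : ∀ ω, B ω → |F.x ω (c 1) - af (a (z (ptr F J ω))) (F.t ω) (F.x ω (c 0))| ≤ 1 / 2 ^ G)
    (hagr : ∀ ω, B ω → Agr F c z a W (1 / 2 ^ G) ω (sel (slam F W ω)))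
    (hlip : ∀ ω, B ω → |a (z (ptr F J ω)) 2| ≤ 2 ^ e) :
    ChN F c 2 (fun _ => 1) W W e (fun i => if i = 0 then W - 1 else G) B := by
  classical
  have e1 : (1 : ℝ) / 2 ^ J ≤ 1 / 2 ^ W := inv_mono hWJ
  have e3 : (1 : ℝ) / 2 ^ (W - 1) = 2 * (1 / 2 ^ W) := by
    have h1 : (2 : ℝ) ^ W = 2 ^ (W - 1) * 2 := by
      rw [← pow_succ, Nat.sub_add_cancel hW1]
    rw [h1]
    field_simp
  obtain ⟨G', hG'⟩ : ∃ G' : PtT F → ℕ → MvPolynomial (Option (Fin m)) ℝ, G' = fun y i =>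
      if i = 0 then C ((y.1 (c 0) : ℝ) / 2 ^ J) else if i = 1 then plp c (a (z y)) else 0 :=
    ⟨_, rfl⟩
  obtain ⟨H', hH'⟩ : ∃ H' : LnT F → ℕ → MvPolynomial (Option (Fin m)) ℝ, H' = fun s i =>
      if i = 0 then C (s.1.1 (c 0) + (s.2.2 : ℝ) / 2 ^ W * s.1.2 (c 0)) else
        if i = 1 then plp c (a (z (ptr F J (sel s)))) else 0 := ⟨_, rfl⟩
  have dC : ∀ (i : ℕ) (x : ℝ), DepC c i (C x) := fun i x b b' _ _ => by rw [eval_C, eval_C]
  have dP : ∀ (b : Fin 3 → ℝ), DepC c 1 (plp c b) := fun b x x' h1 h2 => by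
    rw [plp_eval, plp_eval, h1, h2 0 (by omega)]
  refine ⟨G', H', fun y i => ?_, fun s i => ?_, fun y i => ?_, fun s i => ?_,
    fun ω hω i hi => ?_, fun ω hω i hi b hb => ?_, fun ω hω i hi b hb l hl => ?_⟩
  · rw [hG']
    simp only
    split_ifs
    · rw [totalDegree_C]
      exact Nat.zero_le _
    · exact plp_deg _ _
    · rw [totalDegree_zero]
      exact Nat.zero_le _
  · rw [hH']
    simp only
    split_ifs
    · rw [totalDegree_C]
      exact Nat.zero_le _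
    · exact plp_deg _ _
    · rw [totalDegree_zero]
      exact Nat.zero_le _
  · rw [hG']
    simp only
    split_ifs with h1 h2
    · exact dC _ _
    · rw [h2]
      exact dP _
    · intro b b' _ _
      rw [map_zero, map_zero]
  · rw [hH']
    simp only
    split_ifs with h1 h2
    · exact dC _ _
    · rw [h2]
      exact dP _
    · intro b b' _ _
      rw [map_zero, map_zero]
  · rcases Nat.lt_or_ge i 1 with h1 | h1
    · have h2 : i = 0 := by omega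
      rw [h2, hG']
      simp only [if_true]
      rw [eval_C, e3]
      have h3 := near_pt F (c 0) ω
      have h4 : (0 : ℝ) < 1 / 2 ^ W := by positivity
      change |F.x ω (c 0) - ((F.X J ω (c 0) : ℤ) : ℝ) / 2 ^ J| ≤ _
      linarith
    · have h2 : i = 1 := by omega
      rw [h2, hG']
      simp only [one_ne_zero, if_false, if_true]
      rw [plp_eval]
      exact hpos ω hω
  · rcases Nat.lt_or_ge i 1 with h1 | h1
    · have h2 : i = 0 := by omega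
      rw [h2, hG', hH']
      simp only [if_true]
      rw [eval_C, eval_C, e3]
      have h3 := near_pt F (c 0) ω
      have h4 := near_win F (c 0) hWJ ω
      change |((F.X J ω (c 0) : ℤ) : ℝ) / 2 ^ J - F.x1 W ω (c 0)| ≤ _
      rw [abs_le] at h3 h4 ⊢
      constructor <;> linarith [h3.1, h3.2, h4.1, h4.2]
    · have h2 : i = 1 := by omega
      rw [h2] at hb ⊢
      rw [hG'] at hb
      rw [hG', hH']
      simp only [one_ne_zero, if_false, if_true]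
      rw [plp_eval, plp_eval]
      refine hagr ω hω _ _ hb.1 ?_
      have h3 := hb.2 0 (by omega)
      simp only [if_true, eval_C] at h3
      rw [e3] at h3
      exact h3
  · have h2 : i = 1 := by omega
    have h3 : l = 0 := by omega
    rw [h2, h3, hG']
    simp only [one_ne_zero, if_false, if_true]
    rw [plp_pd, eval_C]
    refine (hlip ω hω).trans ?_
    exact pow_le_pow_right₀ one_le_two (Nat.le_add_right _ _)

end Pool.NJ69
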