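import Pool.Agent.H69.NJ.Lab
import Pool.Agent.H54.GN.Lb
import Pool.Agent.H63.STAT.CloL
import Pool.Agent.H13.K2S.Cht
import Pool.Agent.H45.EXA.Lam

/-!
# No jump of the second coordinate: closed labels over the active coordinate

`lb_lab`: closed labels of the second coordinate over the active one, with small gradients on balls
which are larger than the window, are closed labels on natural boxes, of small weight.
-/

set_option autoImplicit false

namespace Pool.NJ69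

open Finset Real MvPolynomial
open Pool.Agent.H49.Ent Pool.Agent.H32.Dense Pool.STK Pool.KA Pool.KSAT Pool.K2S Pool.PB
  Pool.STAT Pool.STAT.CLO Pool.GEN Pool.S6C Pool.M3F

variable {m J : ℕ}

/-- Two close numbers are in the same cell of one of two meshes. -/
theorem two_mesh {y y' : ℝ} (h : |y - y'| ≤ 1 / 8) :
    ⌊y⌋ = ⌊y'⌋ ∨ ⌊y + 1 / 2⌋ = ⌊y' + 1 / 2⌋ := by
  rw [abs_le] at h
  rcases lt_trichotomy ⌊y⌋ ⌊y'⌋ with h1 | h1 | h1
  · right
    have h2 : y < ⌊y'⌋ := by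
      have h3 := Int.lt_floor_add_one y
      have h4 : ((⌊y⌋ : ℤ) : ℝ) + 1 ≤ ⌊y'⌋ := by exact_mod_cast h1
      linarith
    have h3 := Int.floor_le y'
    have e1 : ⌊y + 1 / 2⌋ = ⌊y'⌋ := by
      rw [Int.floor_eq_iff]
      constructor <;> linarith
    have e2 : ⌊y' + 1 / 2⌋ = ⌊y'⌋ := by
      rw [Int.floor_eq_iff]
      constructor <;> linarith
    rw [e1, e2]
  · left
    exact h1
  · right
    have h2 : y' < ⌊y⌋ := by
      have h3 := Int.lt_floor_add_one y'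
      have h4 : ((⌊y'⌋ : ℤ) : ℝ) + 1 ≤ ⌊y⌋ := by exact_mod_cast h1
      linarith
    have h3 := Int.floor_le y
    have e1 : ⌊y + 1 / 2⌋ = ⌊y⌋ := by
      rw [Int.floor_eq_iff]
      constructor <;> linarith
    have e2 : ⌊y' + 1 / 2⌋ = ⌊y⌋ := by
      rw [Int.floor_eq_iff]
      constructor <;> linarith
    rw [e1, e2]

/-- The values of the time and of the active coordinate, in a point. -/
noncomputable def sub2 (c : ℕ → Fin m) (x : Option (Fin m) → ℝ) (b : ℕ → ℝ) :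
    Option (Fin m) → ℝ :=
  Function.update (Function.update x none (b 0)) (some (c 0)) (b 1)

theorem sub2_none (c : ℕ → Fin m) (x : Option (Fin m) → ℝ) (b : ℕ → ℝ) :
    sub2 c x b none = b 0 := by
  unfold sub2
  rw [Function.update_of_ne (Option.some_ne_none _).symm, Function.update_self]

theorem sub2_act (c : ℕ → Fin m) (x : Option (Fin m) → ℝ) (b : ℕ → ℝ) :
    sub2 c x b (some (c 0)) = b 1 := Function.update_self _ _ _

theorem sub2_oth {c : ℕ → Fin m} (x : Option (Fin m) → ℝ) (b : ℕ → ℝ) {i : Fin m}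
    (hi : i ≠ c 0) : sub2 c x b (some i) = x (some i) := by
  unfold sub2
  rw [Function.update_of_ne (fun h => hi (Option.some.inj h)),
    Function.update_of_ne (Option.some_ne_none _)]

theorem sub2_upd0 (c : ℕ → Fin m) (x : Option (Fin m) → ℝ) (b : ℕ → ℝ) (s : ℝ) :
    sub2 c x (Function.update b 0 s) = Function.update (sub2 c x b) none s := by
  funext o
  rcases o with _ | i
  · rw [sub2_none, Function.update_self, Function.update_self]
  · rw [Function.update_of_ne (Option.some_ne_none _)]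
    by_cases hi : i = c 0
    · subst hi
      rw [sub2_act, sub2_act, Function.update_of_ne one_ne_zero]
    · rw [sub2_oth _ _ hi, sub2_oth _ _ hi]

theorem sub2_upd1 (c : ℕ → Fin m) (x : Option (Fin m) → ℝ) (b : ℕ → ℝ) (s : ℝ) :
    sub2 c x (Function.update b 1 s) = Function.update (sub2 c x b) (some (c 0)) s := by
  funext o
  rcases o with _ | i
  · rw [sub2_none, Function.update_of_ne zero_ne_one,
      Function.update_of_ne (Option.some_ne_none _).symm, sub2_none]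
  · by_cases hi : i = c 0
    · subst hi
      rw [sub2_act, Function.update_self, Function.update_self]
    · rw [Function.update_of_ne (fun h => hi (Option.some.inj h)), sub2_oth _ _ hi,
        sub2_oth _ _ hi]

section tr

variable {c : ℕ → Fin m} {G : MvPolynomial (Option (Fin m)) ℝ} (hG : DepC c 1 G)
  (x : Option (Fin m) → ℝ) (b : ℕ → ℝ)

include hG

theorem eval_tr1 : eval b (tr c 1 G) = eval (sub2 c x b) G := by
  refine eval_tr (n := 1) (fun l hl l' hl' _ => by omega) le_rfl hG (sub2_none c x b)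
    fun l hl => ?_
  have hl0 : l = 0 := by omega
  subst hl0
  exact sub2_act c x b

theorem pd0_tr : eval b (pderiv 0 (tr c 1 G)) = eval (sub2 c x b) (pderiv none G) := by
  classical
  have key : ∀ s, eval (Function.update b 0 s) (tr c 1 G) =
      eval (Function.update (sub2 c x b) none s) G := fun s => by
    rw [eval_tr1 hG x, sub2_upd0]
  have h1 := NL.hasDerivAt_upd (tr c 1 G) b 0 (b 0)
  have h2 := NL.hasDerivAt_upd G (sub2 c x b) none (b 0)
  simp only [key] at h1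
  have h3 := h1.unique h2
  rw [Function.update_eq_self] at h3
  rw [h3]
  have h4 : Function.update (sub2 c x b) none (b 0) = sub2 c x b := by
    rw [← sub2_none c x b, Function.update_eq_self]
  rw [h4]

theorem pd1_tr : eval b (pderiv 1 (tr c 1 G)) = eval (sub2 c x b) (pderiv (some (c 0)) G) := by
  classical
  have key : ∀ s, eval (Function.update b 1 s) (tr c 1 G) =
      eval (Function.update (sub2 c x b) (some (c 0)) s) G := fun s => by
    rw [eval_tr1 hG x, sub2_upd1]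
  have h1 := NL.hasDerivAt_upd (tr c 1 G) b 1 (b 1)
  have h2 := NL.hasDerivAt_upd G (sub2 c x b) (some (c 0)) (b 1)
  simp only [key] at h1
  have h3 := h1.unique h2
  rw [Function.update_eq_self] at h3
  rw [h3]
  have h4 : Function.update (sub2 c x b) (some (c 0)) (b 1) = sub2 c x b := by
    rw [← sub2_act c x b, Function.update_eq_self]
  rw [h4]

end tr

/-! ### The cells of the active coordinate -/

/-- The cell of the active coordinate of a point. -/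
noncomputable def clp {F : Fam m J} (k : Fin m) (W : ℕ) (a : ℝ) (ξ : PtT F) : ℤ :=
  ⌊(2 : ℝ) ^ W * ((ξ.1 k : ℝ) / 2 ^ J) + a⌋

/-- The cell of the active coordinate of a line in a window. -/
noncomputable def cll {F : Fam m J} (k : Fin m) (W' W : ℕ) (a : ℝ) (s : LnT F) : ℤ :=
  ⌊(2 : ℝ) ^ W * (s.1.1 k + (s.2.2 : ℝ) / 2 ^ W' * s.1.2 k) + a⌋

theorem x_cell (F : Fam m J) (ω : F.Ω) (k : Fin m) :
    |F.x ω k - ((ptr F J ω).1 k : ℝ) / 2 ^ J| ≤ 1 / 2 ^ J := by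
  have hr0 : (0 : ℝ) < 2 ^ J := by positivity
  have a1 := Int.floor_le ((2 : ℝ) ^ J * F.x ω k)
  have a2 := Int.lt_floor_add_one ((2 : ℝ) ^ J * F.x ω k)
  have e : F.x ω k - ((ptr F J ω).1 k : ℝ) / 2 ^ J =
      (2 ^ J * F.x ω k - (⌊(2 : ℝ) ^ J * F.x ω k⌋ : ℤ)) / 2 ^ J := by
    change F.x ω k - ((⌊(2 : ℝ) ^ J * F.x ω k⌋ : ℤ) : ℝ) / 2 ^ J = _
    field_simp
  rw [e, abs_div, abs_of_pos hr0]
  refine div_le_div_of_nonneg_right ?_ hr0.le
  rw [abs_le]
  constructor <;> linarith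

theorem x_lin (F : Fam m J) {W : ℕ} (hW : W ≤ J) (ω : F.Ω) (k : Fin m) :
    |F.x ω k - (F.u ω k + (F.T1 W ω : ℝ) / 2 ^ W * F.d ω k)| ≤ 1 / 2 ^ W := by
  have h1 := t_cell F hW ω
  have h2 := F.dir ω k
  have e : F.x ω k - (F.u ω k + (F.T1 W ω : ℝ) / 2 ^ W * F.d ω k) =
      (F.t ω - (F.T1 W ω : ℝ) / 2 ^ W) * F.d ω k := by
    unfold Fam.x
    ring
  rw [e, abs_mul]
  calc |F.t ω - (F.T1 W ω : ℝ) / 2 ^ W| * |F.d ω k| ≤ 1 / 2 ^ W * 1 :=
        mul_le_mul h1 h2 (abs_nonneg _) (by positivity)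
    _ = _ := mul_one _

/-- One of the two meshes is right for half of the samples. -/
theorem cell_ex {F : Fam m J} (k : Fin m) {W : ℕ} (hW4 : 4 ≤ W) (hW : W ≤ J) (A : F.Ω → Prop) :
    ∃ (a : ℝ) (B : F.Ω → Prop), Sub B A ∧ Pe F.p A ≤ 2 * Pe F.p B ∧
      ∀ ω, B ω → clp k (W - 4) a (ptr F J ω) = cll k W (W - 4) a (slam F W ω) := by
  classical
  have hmesh : ∀ ω, clp k (W - 4) 0 (ptr F J ω) = cll k W (W - 4) 0 (slam F W ω) ∨
      clp k (W - 4) (1 / 2) (ptr F J ω) = cll k W (W - 4) (1 / 2) (slam F W ω) := by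
    intro ω
    have h1 := x_cell F ω k
    have h2 := x_lin F hW ω k
    have h3 : (1 : ℝ) / 2 ^ J ≤ 1 / 2 ^ W :=
      one_div_le_one_div_of_le (by positivity) (pow_le_pow_right₀ one_le_two hW)
    have pW : (2 : ℝ) ^ W = 2 ^ (W - 4) * 16 := by
      have e1 : W = W - 4 + 4 := by omega
      conv_lhs => rw [e1, pow_add]
      norm_num
    have p0 : (0 : ℝ) < 2 ^ (W - 4) := by positivity
    have h4 : |(2 : ℝ) ^ (W - 4) * (((ptr F J ω).1 k : ℝ) / 2 ^ J) -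
        2 ^ (W - 4) * (F.u ω k + (F.T1 W ω : ℝ) / 2 ^ W * F.d ω k)| ≤ 1 / 8 := by
      rw [← mul_sub, abs_mul, abs_of_pos p0]
      have h5 : |((ptr F J ω).1 k : ℝ) / 2 ^ J -
          (F.u ω k + (F.T1 W ω : ℝ) / 2 ^ W * F.d ω k)| ≤ 2 / 2 ^ W := by
        have e2 : (2 : ℝ) / 2 ^ W = 1 / 2 ^ W + 1 / 2 ^ W := by ring
        rw [e2]
        rw [abs_le] at h1 h2 ⊢
        constructor <;> linarith [h1.1, h1.2, h2.1, h2.2]
      calc (2 : ℝ) ^ (W - 4) * _ ≤ 2 ^ (W - 4) * (2 / 2 ^ W) :=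
            mul_le_mul_of_nonneg_left h5 p0.le
        _ = 1 / 8 := by
            rw [pW]
            field_simp
            norm_num
    have h5 := two_mesh h4
    rcases h5 with h5 | h5
    · left
      unfold clp cll
      rw [add_zero, add_zero]
      exact h5
    · right
      exact h5
  obtain ⟨B₀, hB₀⟩ : ∃ B₀ : F.Ω → Prop, B₀ = fun ω => A ω ∧
      clp k (W - 4) 0 (ptr F J ω) = cll k W (W - 4) 0 (slam F W ω) := ⟨_, rfl⟩
  obtain ⟨B₁, hB₁⟩ : ∃ B₁ : F.Ω → Prop, B₁ = fun ω => A ω ∧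
      clp k (W - 4) (1 / 2) (ptr F J ω) = cll k W (W - 4) (1 / 2) (slam F W ω) := ⟨_, rfl⟩
  have h1 : Pe F.p A ≤ Pe F.p B₀ + Pe F.p B₁ := by
    refine Pool.K2S.Pe_or F.isLaw fun ω hω => ?_
    rcases hmesh ω with h | h
    · left
      rw [hB₀]
      exact ⟨hω, h⟩
    · right
      rw [hB₁]
      exact ⟨hω, h⟩
  rcases le_total (Pe F.p B₀) (Pe F.p B₁) with h2 | h2
  · refine ⟨1 / 2, B₁, fun ω h => ?_, by linarith, fun ω h => ?_⟩
    · rw [hB₁] at h
      exact h.1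
    · rw [hB₁] at h
      exact h.2
  · refine ⟨0, B₀, fun ω h => ?_, by linarith, fun ω h => ?_⟩
    · rw [hB₀] at h
      exact h.1
    · rw [hB₀] at h
      exact h.2

/-- The middle of the cell of a point. -/
theorem clp_mid {F : Fam m J} (k : Fin m) (W : ℕ) (a : ℝ) (ξ : PtT F) :
    |(ξ.1 k : ℝ) / 2 ^ J - ((clp k W a ξ : ℝ) + 1 / 2 - a) / 2 ^ W| ≤ 1 / 2 ^ W / 2 := by
  have p0 : (0 : ℝ) < 2 ^ W := by positivity
  have h1 := Int.floor_le ((2 : ℝ) ^ W * ((ξ.1 k : ℝ) / 2 ^ J) + a)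
  have h2 := Int.lt_floor_add_one ((2 : ℝ) ^ W * ((ξ.1 k : ℝ) / 2 ^ J) + a)
  have e : (ξ.1 k : ℝ) / 2 ^ J - ((clp k W a ξ : ℝ) + 1 / 2 - a) / 2 ^ W =
      (2 ^ W * ((ξ.1 k : ℝ) / 2 ^ J) - ((clp k W a ξ : ℝ) + 1 / 2 - a)) / 2 ^ W := by
    field_simp
  rw [e, abs_div, abs_of_pos p0, div_div, mul_comm ((2 : ℝ) ^ W) 2, ← div_div]
  refine div_le_div_of_nonneg_right ?_ p0.le
  unfold clp
  rw [abs_le]
  constructor <;> linarith

theorem inv_pow_le {a b : ℕ} (h : a ≤ b) : (1 : ℝ) / 2 ^ b ≤ 1 / 2 ^ a :=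
  one_div_le_one_div_of_le (by positivity) (pow_le_pow_right₀ one_le_two h)

theorem two_pow_sub {W k : ℕ} (h : k ≤ W) : (1 : ℝ) / 2 ^ (W - k) = 2 ^ k * (1 / 2 ^ W) := by
  have e1 : (2 : ℝ) ^ W = 2 ^ (W - k) * 2 ^ k := by rw [← pow_add, Nat.sub_add_cancel h]
  rw [e1]
  field_simp

/-- **Closed labels with small gradients are closed labels on natural boxes.** -/
theorem lb_lab {F : Fam m J} {c : ℕ → Fin m} {K e W ρ Q sg g1 : ℕ} {A : F.Ω → Prop}
    (h : Lb F {c 0} (c 1) K e J W ρ Q A) (hW : W ≤ J) (hρ : ρ + 7 ≤ W) (hsg : e + 1 ≤ sg)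
    (hg1 : g1 ≤ Q + sg) :
    ∃ (B : F.Ω → Prop) (V : Type) (z : PtT F → V) (z' : LnT F → V) (P : V → ℕ → PN),
      Sub B A ∧ Pe F.p A ≤ 2 * Pe F.p B ∧
      NLabW F c 1 W sg (fun i => if i = 0 then W - 4 else g1) K 1 B z z' P := by
  classical
  obtain ⟨V₀, z₀, z₀', G, h⟩ := h
  obtain ⟨a, B, hBA, hBP, hcell⟩ := cell_ex (F := F) (c 0) (W := W) (by omega) hW A
  have hdep : ∀ v, DepC c 1 (G v) := fun v b b' h0 h1 => h.dep v b b' h0 fun i hi => by
    rw [Finset.mem_singleton] at hi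
    subst hi
    exact h1 0 one_pos
  obtain ⟨P, hP⟩ : ∃ P : V₀ × ℕ × ℤ → ℕ → PN, P = fun v i =>
      if i = 0 then MvPolynomial.C ((v.2.1 : ℝ) / 2 ^ W) else
        if i = 1 then MvPolynomial.C (((v.2.2 : ℝ) + 1 / 2 - a) / 2 ^ (W - 4)) else
          if i = 2 then MvPolynomial.C ((1 : ℝ) / 2 ^ sg) * tr c 1 (G v.1) else 0 := ⟨_, rfl⟩
  have hP0 : ∀ v, P v 0 = MvPolynomial.C ((v.2.1 : ℝ) / 2 ^ W) := fun v => by
    rw [hP]
    exact if_pos rfl
  have hP1 : ∀ v, P v 1 = MvPolynomial.C (((v.2.2 : ℝ) + 1 / 2 - a) / 2 ^ (W - 4)) := fun v => by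
    rw [hP]
    show (if (1 : ℕ) = 0 then _ else if (1 : ℕ) = 1 then _ else _) = _
    rw [if_neg one_ne_zero, if_pos rfl]
  have hP2 : ∀ v, P v 2 = MvPolynomial.C ((1 : ℝ) / 2 ^ sg) * tr c 1 (G v.1) := fun v => by
    rw [hP]
    show (if (2 : ℕ) = 0 then _ else if (2 : ℕ) = 1 then _ else if (2 : ℕ) = 2 then _ else _) = _
    rw [if_neg two_ne_zero, if_neg (by norm_num), if_pos rfl]
  have hP3 : ∀ v i, 3 ≤ i → P v i = 0 := fun v i hi => by
    rw [hP]
    show (if i = 0 then _ else if i = 1 then _ else if i = 2 then _ else _) = _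
    rw [if_neg (by omega), if_neg (by omega), if_neg (by omega)]
  obtain ⟨z, hz⟩ : ∃ z : PtT F → V₀ × ℕ × ℤ, z = fun ξ =>
      (z₀ ξ, ξ.2.1 / 2 ^ (J - W), clp (c 0) (W - 4) a ξ) := ⟨_, rfl⟩
  obtain ⟨z', hz'⟩ : ∃ z' : LnT F → V₀ × ℕ × ℤ, z' = fun s =>
      (z₀' s, s.2.2, cll (c 0) W (W - 4) a s) := ⟨_, rfl⟩
  have hz1 : ∀ ω, (z (ptr F J ω)).1 = z₀ (ptr F J ω) := fun ω => by rw [hz]
  have hz2 : ∀ ω, (z (ptr F J ω)).2.1 = F.T1 W ω := fun ω => by
    rw [hz]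
    rfl
  have hz3 : ∀ ω, (z (ptr F J ω)).2.2 = clp (c 0) (W - 4) a (ptr F J ω) := fun ω => by rw [hz]
  have pW : (0 : ℝ) < 1 / 2 ^ W := by positivity
  have pJ : (0 : ℝ) < 1 / 2 ^ J := by positivity
  have hJW : (1 : ℝ) / 2 ^ J ≤ 1 / 2 ^ W := inv_pow_le hW
  have hW4 : (1 : ℝ) / 2 ^ (W - 4) = 16 * (1 / 2 ^ W) := by
    rw [two_pow_sub (by omega)]
    norm_num
  have hρW : 128 * (1 / 2 ^ W) ≤ (1 : ℝ) / 2 ^ ρ := by
    have e1 : (1 : ℝ) / 2 ^ (W - 7) = 128 * (1 / 2 ^ W) := by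
      rw [two_pow_sub (by omega)]
      norm_num
    rw [← e1]
    exact inv_pow_le (by omega)
  -- the gradients
  have hgr : ∀ ω, B ω → ∀ b : ℕ → ℝ, |b 0 - F.t ω| ≤ 1 / 2 ^ ρ → |b 1 - F.x ω (c 0)| ≤ 1 / 2 ^ ρ →
      ∀ o, |eval (sub2 c (bt F ω) b) (pderiv o (G (z (ptr F J ω)).1))| ≤ 2 ^ e := by
    intro ω hω b h0 h1 o
    have h2 := h.lip ω (hBA ω hω) (sub2 c (bt F ω) b) (fun o' => by
      rcases o' with _ | i
      · rw [sub2_none]
        exact h0
      · by_cases hi : i = c 0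
        · subst hi
          rw [sub2_act]
          exact h1
        · rw [sub2_oth _ _ hi, sub_self, abs_zero]
          positivity) o
    rwa [← h.cls ω (hBA ω hω), ← hz1] at h2
  refine ⟨B, V₀ × ℕ × ℤ, z, z', P, hBA, hBP, ?_, ?_, ?_, ?_, ?_, ?_, ?_⟩
  · intro v i
    rcases (show i = 0 ∨ i = 1 ∨ i = 2 ∨ 3 ≤ i by omega) with rfl | rfl | rfl | hi
    · rw [hP0, totalDegree_C]
      exact Nat.zero_le _
    · rw [hP1, totalDegree_C]
      exact Nat.zero_le _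
    · rw [hP2]
      refine (totalDegree_mul _ _).trans ?_
      rw [totalDegree_C, zero_add]
      exact (tr_deg _ _ _).trans (h.deg _)
    · rw [hP3 v i hi, totalDegree_zero]
      exact Nat.zero_le _
  · intro v i
    rcases (show i = 0 ∨ i = 1 ∨ i = 2 ∨ 3 ≤ i by omega) with rfl | rfl | rfl | hi
    · rw [hP0, vars_C]
      exact Finset.empty_subset _
    · rw [hP1, vars_C]
      exact Finset.empty_subset _
    · rw [hP2]
      refine (vars_mul _ _).trans ?_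
      rw [vars_C, Finset.empty_union]
      exact tr_vars c 1 _
    · rw [hP3 v i hi, vars_0]
      exact Finset.empty_subset _
  · intro ω hω
    have h1 := h.cls ω (hBA ω hω)
    have h2 := hcell ω hω
    rw [hz, hz']
    show (z₀ (ptr F J ω), F.T1 W ω, clp (c 0) (W - 4) a (ptr F J ω)) =
      (z₀' (slam F W ω), F.T1 W ω, cll (c 0) W (W - 4) a (slam F W ω))
    rw [h1, h2]
  · intro ω hω
    rw [hP0, hz2]
  · intro ω hω i hi
    have hi0 : i = 0 := by omega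
    subst hi0
    rw [zero_add, hP1, eval_C, hz3]
    show |px c (ptr F J ω) 1 - _| ≤ 1 / 2 ^ (W - 4)
    have e1 : px c (ptr F J ω) 1 = ((ptr F J ω).1 (c 0) : ℝ) / 2 ^ J := by
      unfold px
      rw [if_neg one_ne_zero]
    rw [e1]
    refine (clp_mid (c 0) (W - 4) a (ptr F J ω)).trans ?_
    have : (0 : ℝ) < 1 / 2 ^ (W - 4) := by positivity
    linarith
  · intro ω hω
    have hωA := hBA ω hω
    show |px c (ptr F J ω) 2 / 2 ^ sg - eval (px c (ptr F J ω)) (P (z (ptr F J ω)) 2)| ≤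
      1 / 2 ^ (if (1 : ℕ) = 0 then W - 4 else g1) + 1 / 2 ^ J
    rw [if_neg one_ne_zero, hP2, map_mul, eval_C, eval_tr1 (hdep _) (bt F ω)]
    have q0 : px c (ptr F J ω) 0 = F.t ω := by
      unfold px
      rw [if_pos rfl]
      rfl
    have q1 : px c (ptr F J ω) 1 = ((ptr F J ω).1 (c 0) : ℝ) / 2 ^ J := by
      unfold px
      rw [if_neg one_ne_zero]
    have q2 : px c (ptr F J ω) 2 = ((ptr F J ω).1 (c 1) : ℝ) / 2 ^ J := by
      unfold px
      rw [if_neg two_ne_zero]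
    have hx0 := x_cell F ω (c 0)
    have hx1 := x_cell F ω (c 1)
    have h1 := h.pos ω hωA
    rw [← h.cls ω hωA, ← hz1] at h1
    obtain ⟨Gv, hGv⟩ : ∃ Gv, Gv = G (z (ptr F J ω)).1 := ⟨_, rfl⟩
    have h2 : |eval (sub2 c (bt F ω) (px c (ptr F J ω))) Gv - eval (bt F ω) Gv| ≤
        2 ^ e * (1 / 2 ^ J) := by
      refine (mvσ Gv (bt F ω) (sub2 c (bt F ω) (px c (ptr F J ω))) (2 ^ e) (fun y hy o => ?_)).trans
        (mul_le_mul_of_nonneg_left ?_ (by positivity))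
      · have h3 := h.lip ω hωA y (fun o' => (hy o').trans ?_) o
        · rwa [← h.cls ω hωA, ← hz1, ← hGv] at h3
        · rcases o' with _ | i
          · rw [sub2_none, q0]
            show |F.t ω - F.t ω| ≤ _
            rw [sub_self, abs_zero]
            positivity
          · by_cases hi : i = c 0
            · subst hi
              rw [sub2_act, q1]
              show |_ - F.x ω (c 0)| ≤ _
              rw [abs_sub_comm]
              refine hx0.trans (inv_pow_le (by omega))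
            · rw [sub2_oth _ _ hi, sub_self, abs_zero]
              positivity
      · have h4 : ∀ o, o ≠ some (c 0) →
            |sub2 c (bt F ω) (px c (ptr F J ω)) o - bt F ω o| = 0 := by
          intro o ho
          rcases o with _ | i
          · rw [sub2_none, q0]
            show |F.t ω - F.t ω| = 0
            rw [sub_self, abs_zero]
          · rw [sub2_oth _ _ (fun hi => ho (by rw [hi])), sub_self, abs_zero]
        rw [Finset.sum_eq_single (some (c 0)) (fun o _ ho => h4 o ho)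
          (fun ho => absurd (Finset.mem_univ _) ho), sub2_act, q1]
        show |_ - F.x ω (c 0)| ≤ _
        rw [abs_sub_comm]
        exact hx0
    rw [← hGv] at h1 ⊢
    obtain ⟨E, hE⟩ : ∃ E, E = eval (sub2 c (bt F ω) (px c (ptr F J ω))) Gv := ⟨_, rfl⟩
    rw [← hE] at h2 ⊢
    have h5 : |px c (ptr F J ω) 2 - E| ≤ 1 / 2 ^ Q + (1 + 2 ^ e) * (1 / 2 ^ J) := by
      rw [q2]
      rw [abs_le] at hx1 h1 h2 ⊢
      constructor <;> linarith [hx1.1, hx1.2, h1.1, h1.2, h2.1, h2.2]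
    have psg : (0 : ℝ) < 2 ^ sg := by positivity
    have e3 : px c (ptr F J ω) 2 / 2 ^ sg - 1 / 2 ^ sg * E = (px c (ptr F J ω) 2 - E) / 2 ^ sg := by
      ring
    rw [e3, abs_div, abs_of_pos psg, div_le_iff₀ psg]
    refine h5.trans ?_
    have e4 : (1 : ℝ) / 2 ^ Q ≤ 1 / 2 ^ g1 * 2 ^ sg := by
      have h6 : (1 : ℝ) / 2 ^ (Q + sg) ≤ 1 / 2 ^ g1 := inv_pow_le hg1
      calc (1 : ℝ) / 2 ^ Q = 1 / 2 ^ (Q + sg) * 2 ^ sg := by
            rw [pow_add]
            field_simp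
        _ ≤ _ := mul_le_mul_of_nonneg_right h6 psg.le
    have e5 : (1 : ℝ) + 2 ^ e ≤ 2 ^ sg := by
      have h6 : (2 : ℝ) ^ (e + 1) ≤ 2 ^ sg := pow_le_pow_right₀ one_le_two hsg
      have h7 : (1 : ℝ) ≤ 2 ^ e := one_le_pow₀ one_le_two
      rw [pow_succ] at h6
      linarith
    have e6 := mul_le_mul_of_nonneg_right e5 pJ.le
    have e7 : (1 / 2 ^ g1 + 1 / 2 ^ J) * (2 : ℝ) ^ sg = 1 / 2 ^ g1 * 2 ^ sg + 2 ^ sg * (1 / 2 ^ J) := by
      ring
    rw [e7]
    linarith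
  · intro ω hω b hb i hi l hl
    have hb0 := hb 0 (by norm_num)
    have hb1 := hb 1 (by norm_num)
    rw [hP0, eval_C, hz2] at hb0
    rw [hP1, eval_C, hz3] at hb1
    have w0 : wid W (fun i => if i = 0 then W - 4 else g1) 0 = W := if_pos rfl
    have w1 : wid W (fun i => if i = 0 then W - 4 else g1) 1 = W - 4 := by
      unfold wid
      rw [if_neg one_ne_zero]
      exact if_pos rfl
    rw [w0] at hb0
    rw [w1] at hb1
    have hb0' : |b 0 - F.t ω| ≤ 1 / 2 ^ ρ := by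
      have h1 := t_cell F hW ω
      have e1 : (4 : ℝ) / 2 ^ W = 4 * (1 / 2 ^ W) := by ring
      rw [e1] at hb0
      rw [abs_le] at h1 hb0 ⊢
      constructor <;> linarith [h1.1, h1.2, hb0.1, hb0.2]
    have hb1' : |b 1 - F.x ω (c 0)| ≤ 1 / 2 ^ ρ := by
      have h1 := clp_mid (c 0) (W - 4) a (ptr F J ω)
      have h2 := x_cell F ω (c 0)
      have e1 : (4 : ℝ) / 2 ^ (W - 4) = 64 * (1 / 2 ^ W) := by
        have e2 : (4 : ℝ) / 2 ^ (W - 4) = 4 * (1 / 2 ^ (W - 4)) := by ring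
        rw [e2, hW4]
        ring
      rw [e1] at hb1
      rw [hW4] at h1
      rw [abs_le] at h1 h2 hb1 ⊢
      constructor <;> linarith [h1.1, h1.2, h2.1, h2.2, hb1.1, hb1.2]
    rcases (show i = 0 ∨ i = 1 ∨ i = 2 by omega) with rfl | rfl | rfl
    · omega
    · rw [hP1, pderiv_C, map_zero, abs_zero]
      norm_num
    · have e1 : eval b (pderiv l (P (z (ptr F J ω)) 2)) =
          1 / 2 ^ sg * eval b (pderiv l (tr c 1 (G (z (ptr F J ω)).1))) := by
        rw [hP2, Derivation.leibniz, pderiv_C, smul_zero, add_zero, smul_eq_mul, map_mul, eval_C]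
      have e2 : |eval b (pderiv l (tr c 1 (G (z (ptr F J ω)).1)))| ≤ 2 ^ e := by
        rcases (show l = 0 ∨ l = 1 by omega) with rfl | rfl
        · rw [pd0_tr (hdep _) (bt F ω)]
          exact hgr ω hω b hb0' hb1' none
        · rw [pd1_tr (hdep _) (bt F ω)]
          exact hgr ω hω b hb0' hb1' (some (c 0))
      rw [e1, abs_mul, abs_of_pos (by positivity : (0 : ℝ) < 1 / 2 ^ sg), one_div,
        inv_mul_le_iff₀ (by positivity), mul_one]
      exact e2.trans (pow_le_pow_right₀ one_le_two (by omega))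

/-- **The closed labels of the second coordinate just after a window**: their precision is the
number at the window. -/
theorem lb1_lam {S : PCl m}
    (hmem : ∀ (τ : ℝ) (J : ℕ) (F : Fam m J) (A : F.Ω → Prop), S.St τ J F A →
      F.Tr ∧ F.Tm (τ * J) ∧ F.Rb (τ * J) ∧ Real.exp (-(τ * J)) ≤ Pe F.p A)
    (hx : ∀ (τ : ℝ) (J : ℕ) (F : Fam m J) (A : F.Ω → Prop), S.St τ J F A →
      ∀ ω i, |F.x ω i| ≤ 2)
    {L : Finset (Fin m) → Fin m → ℝ → ℝ → ℝ} (hL : LamW S L) {N : ℚ → ℚ → ℝ} {al : ℝ}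
    (hal : 0 < al) (hQ : ActQ N al) {c : ℕ → Fin m} (hact : ActB N S (c 0)) {w₁ w₂ : ℝ}
    (hw₁ : 0 < w₁) (h12 : w₁ < w₂) (hw₂ : w₂ < 1) (hlow : w₂ ≤ L {c 0} (c 1) w₁ w₁) :
    Lb1 S c w₂ (L {c 0} (c 1) w₁ w₁) := by
  classical
  have hS : Pool.CHT.TmH S := Pool.CHT.tmH_of_reg hmem
  intro η hη
  obtain ⟨L₀, hL₀⟩ : ∃ L₀, L₀ = L {c 0} (c 1) w₁ w₁ := ⟨_, rfl⟩
  have hL₀1 : L₀ ≤ 1 := by rw [hL₀]; exact hL.le1 _ _ _ _
  rw [← hL₀] at hlow ⊢
  obtain ⟨e, he⟩ : ∃ e, e = min (η / 8) ((w₂ - w₁) / 4) := ⟨_, rfl⟩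
  have he0 : 0 < e := by
    rw [he]
    exact lt_min (by linarith) (by linarith)
  have he1 : e ≤ η / 8 := by
    rw [he]
    exact min_le_left _ _
  have he2 : e ≤ (w₂ - w₁) / 4 := by
    rw [he]
    exact min_le_right _ _
  obtain ⟨K, hK⟩ := hL.att {c 0} (c 1) w₁ w₂ w₁ e (by linarith) hw₂.le h12 he0
  rw [← hL₀] at hK
  refine ⟨K, w₂, L₀, 2 * e, η / 2, 1 / 2, by linarith, by linarith, by linarith, by linarith,
    le_rfl, ?_, Pool.PLA.affs K hS.1 hS.2 hx hal hQ hact (by linarith) hw₂ le_rfl hw₂ hlow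
      (by linarith) (by norm_num)⟩
  intro φ hφ
  refine ⟨1 / 2, by norm_num, ?_⟩
  obtain ⟨J₁, hJ₁⟩ := exists_nat_gt (5 / φ)
  obtain ⟨J₂, hJ₂⟩ := exists_nat_gt (1 / e)
  obtain ⟨J₃, hJ₃⟩ := exists_nat_gt (10 / (w₂ - w₁))
  refine hK.mono (max J₁ (max J₂ J₃)) ?_
  intro J hJ F A hlb
  have hJ0 : (0 : ℝ) ≤ J := Nat.cast_nonneg J
  have j₁ : (J₁ : ℝ) ≤ J := by exact_mod_cast (le_max_left _ _).trans hJ
  have j₂ : (J₂ : ℝ) ≤ J := by
    exact_mod_cast ((le_max_left _ _).trans (le_max_right _ _)).trans hJ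
  have j₃ : (J₃ : ℝ) ≤ J := by
    exact_mod_cast ((le_max_right _ _).trans (le_max_right _ _)).trans hJ
  have k₁ : 5 ≤ φ * J := by
    have := lt_of_lt_of_le hJ₁ j₁
    rw [div_lt_iff₀ hφ] at this
    linarith
  have k₂ : 1 ≤ e * J := by
    have := lt_of_lt_of_le hJ₂ j₂
    rw [div_lt_iff₀ he0] at this
    linarith
  have k₃ : 10 ≤ (w₂ - w₁) * J := by
    have := lt_of_lt_of_le hJ₃ j₃
    rw [div_lt_iff₀ (by linarith)] at this
    linarith
  obtain ⟨E, hE⟩ : ∃ E, E = ⌊e * J⌋₊ := ⟨_, rfl⟩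
  obtain ⟨W, hW⟩ : ∃ W, W = ⌊w₂ * J⌋₊ := ⟨_, rfl⟩
  obtain ⟨ρ, hρ⟩ : ∃ ρ, ρ = ⌊(w₁ + e) * J⌋₊ := ⟨_, rfl⟩
  obtain ⟨Q, hQ'⟩ : ∃ Q, Q = ⌊(L₀ - e) * J⌋₊ := ⟨_, rfl⟩
  rw [← hE, ← hW, ← hρ, ← hQ'] at hlb
  have hE1 : (E : ℝ) ≤ e * J := by
    rw [hE]
    exact Nat.floor_le (mul_nonneg he0.le hJ0)
  have hE2 : e * J < E + 1 := by
    rw [hE]
    exact Nat.lt_floor_add_one _
  have hW1 : (W : ℝ) ≤ w₂ * J := by
    rw [hW]
    exact Nat.floor_le (mul_nonneg (by linarith) hJ0)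
  have hW2 : w₂ * J < W + 1 := by
    rw [hW]
    exact Nat.lt_floor_add_one _
  have hρ1 : (ρ : ℝ) ≤ (w₁ + e) * J := by
    rw [hρ]
    exact Nat.floor_le (mul_nonneg (by linarith) hJ0)
  have hQ1 : (Q : ℝ) ≤ (L₀ - e) * J := by
    rw [hQ']
    exact Nat.floor_le (mul_nonneg (by linarith) hJ0)
  have hQ2 : (L₀ - e) * J < Q + 1 := by
    rw [hQ']
    exact Nat.lt_floor_add_one _
  have hWJ : W ≤ J := by
    have h1 : (W : ℝ) ≤ J := hW1.trans (mul_le_of_le_one_left hJ0 hw₂.le)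
    exact_mod_cast h1
  have hρW : ρ + 7 < W + 1 := by
    have h1 : ((ρ + 7 : ℕ) : ℝ) < ((W + 1 : ℕ) : ℝ) := by
      push_cast
      have h2 : (w₁ + e) * (J : ℝ) ≤ (w₂ - 3 / 4 * (w₂ - w₁)) * J :=
        mul_le_mul_of_nonneg_right (by linarith) hJ0
      have h3 : (w₂ - 3 / 4 * (w₂ - w₁)) * (J : ℝ) = w₂ * J - 3 / 4 * ((w₂ - w₁) * J) := by ring
      linarith
    exact_mod_cast h1
  obtain ⟨B, V, z, z', P, hBA, hBP, hN⟩ := lb_lab (sg := E + 1) (g1 := Q + E) hlb hWJ (by omega)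
    le_rfl (by omega)
  refine ⟨B, V, z, z', P, fun i => if i = 0 then W - 4 else Q + E, E + 1, 1, hBA, by linarith,
    ?_, ?_, ?_, ?_, zero_le_one, ?_, by rw [← hW]; exact hN⟩
  · show |((if (0 : ℕ) = 0 then W - 4 else Q + E : ℕ) : ℝ) - w₂ * J| ≤ φ * J
    rw [if_pos rfl, Nat.cast_sub (by omega), abs_le]
    push_cast
    constructor <;> linarith
  · show |((if (1 : ℕ) = 0 then W - 4 else Q + E : ℕ) : ℝ) - L₀ * J| ≤ φ * J
    rw [if_neg one_ne_zero, abs_le]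
    push_cast
    constructor <;> linarith
  · show (if (1 : ℕ) = 0 then W - 4 else Q + E) ≤ J
    rw [if_neg one_ne_zero]
    have h1 : ((Q + E : ℕ) : ℝ) ≤ J := by
      push_cast
      have h2 : L₀ * (J : ℝ) ≤ J := mul_le_of_le_one_left hJ0 hL₀1
      linarith
    exact_mod_cast h1
  · push_cast
    linarith
  · have h1 : Real.log (1 + 1) ≤ 1 := by
      have := Real.log_two_lt_d9
      norm_num
      linarith
    linarith

end Pool.NJ69
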